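import Mathlib

set_option autoImplicit false

namespace Pool.Agent.H453R2.Thue

open Polynomial

/-- `ℚ[X][Y]`, where `X` has weight 2 and `Y` (the outer variable) has weight 3. -/
abbrev R2 := Polynomial (Polynomial ℚ)

/-- power series in the two local coordinates `X 0 = h`, `X 1 = σ` -/
abbrev S2 := MvPowerSeries (Fin 2) ℚ

/-- the coefficient of `X^i Y^j` -/
noncomputable def cf (p : R2) (i j : ℕ) : ℚ := (p.coeff j).coeff i

lemma cf_add (p q : R2) (i j : ℕ) : cf (p + q) i j = cf p i j + cf q i j := by simp [cf]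

lemma cf_mono (i j i' j' : ℕ) (c : ℚ) : cf (monomial j (monomial i c)) i' j'
    = if j = j' ∧ i = i' then c else 0 := by
  simp only [cf, coeff_monomial]
  by_cases h : j = j'
  · simp [h, coeff_monomial]
  · simp [h]

lemma ind {P : R2 → Prop} (h0 : ∀ p q, P p → P q → P (p + q))
    (h1 : ∀ i j (c : ℚ), P (monomial j (monomial i c))) (p : R2) : P p := by
  induction p using Polynomial.induction_on' with
  | add p q hp hq => exact h0 p q hp hq
  | monomial j a =>
    induction a using Polynomial.induction_on' with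
    | add p q hp hq => rw [map_add]; exact h0 _ _ hp hq
    | monomial i c => exact h1 i j c

lemma ext2 {p q : R2} (h : ∀ i j, cf p i j = cf q i j) : p = q := by
  ext j i; exact h i j

noncomputable def Θ1 : ℚ →+* Polynomial R2 :=
  ((C : R2 →+* Polynomial R2).comp (C : Polynomial ℚ →+* R2)).comp (C : ℚ →+* Polynomial ℚ)

noncomputable def Θ0 : Polynomial ℚ →+* Polynomial R2 :=
  eval₂RingHom Θ1 (C (C (X : Polynomial ℚ)) * X ^ 2)

/-- ring hom recording the weighted degree -/
noncomputable def Θ : R2 →+* Polynomial R2 := eval₂RingHom Θ0 (C (X : R2) * X ^ 3)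

lemma Θ_mono (i j : ℕ) (c : ℚ) : Θ (monomial j (monomial i c))
    = monomial (2 * i + 3 * j) (monomial j (monomial i c)) := by
  have e1 : (monomial j (monomial i c) : R2) = C (C c) * (C X) ^ i * X ^ j := by
    rw [← C_mul_X_pow_eq_monomial, ← C_mul_X_pow_eq_monomial]
    simp
  rw [e1, map_mul, map_mul, map_pow, map_pow, ← C_mul_X_pow_eq_monomial]
  simp only [Θ, Θ0, Θ1, coe_eval₂RingHom, eval₂_C, eval₂_X, RingHom.comp_apply, map_mul, map_pow]
  ring

lemma coeff_Θ (p : R2) (w i j : ℕ) : cf ((Θ p).coeff w) i j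
    = if 2 * i + 3 * j = w then cf p i j else 0 := by
  induction p using ind with
  | h0 p q hp hq => rw [map_add, coeff_add, cf_add, hp, hq, cf_add]; split_ifs <;> simp
  | h1 i' j' c =>
    rw [Θ_mono, coeff_monomial]
    by_cases h : 2 * i' + 3 * j' = w
    · rw [if_pos h, cf_mono]
      by_cases h2 : j' = j ∧ i' = i
      · rw [if_pos h2, if_pos (by rw [← h2.1, ← h2.2]; exact h)]
      · rw [if_neg h2]; simp
    · rw [if_neg h, cf_mono]
      by_cases h2 : j' = j ∧ i' = i
      · rw [if_neg (by rw [← h2.1, ← h2.2]; exact h)]; simp [cf]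
      · rw [if_neg h2]; simp [cf]

/-- weighted degree -/
noncomputable def D (p : R2) : ℕ := (Θ p).natDegree

lemma le_D {p : R2} {i j : ℕ} (h : cf p i j ≠ 0) : 2 * i + 3 * j ≤ D p := by
  apply le_natDegree_of_ne_zero
  intro h2
  apply h
  have := coeff_Θ p (2 * i + 3 * j) i j
  rw [if_pos rfl, h2] at this
  rw [← this]; simp [cf]

lemma D_le {p : R2} {n : ℕ} (h : ∀ i j, cf p i j ≠ 0 → 2 * i + 3 * j ≤ n) : D p ≤ n := by
  rw [D, natDegree_le_iff_coeff_eq_zero]
  intro w hw
  apply ext2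
  intro i j
  rw [coeff_Θ]
  have h0 : cf (0 : R2) i j = 0 := by simp [cf]
  rw [h0]
  split_ifs with h2
  · by_contra h3
    have := h i j h3
    omega
  · rfl

lemma Θ_ne {p : R2} (h : p ≠ 0) : Θ p ≠ 0 := by
  intro h2
  apply h
  apply ext2
  intro i j
  have := coeff_Θ p (2 * i + 3 * j) i j
  rw [if_pos rfl, h2] at this
  rw [← this]; simp [cf]

lemma D_mul {p q : R2} (hp : p ≠ 0) (hq : q ≠ 0) : D (p * q) = D p + D q := by
  rw [D, map_mul, natDegree_mul (Θ_ne hp) (Θ_ne hq), D, D]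

lemma isUnit_of_D {p : R2} (hp : p ≠ 0) (h : D p = 0) : IsUnit p := by
  have h1 : p = C (C (cf p 0 0)) := by
    apply ext2
    intro i j
    by_cases hij : i = 0 ∧ j = 0
    · rw [hij.1, hij.2]; simp [cf]
    · have h2 : cf p i j = 0 := by
        by_contra h3
        have := le_D h3
        apply hij
        constructor <;> omega
      rw [h2]
      have := cf_mono 0 0 i j (cf p 0 0)
      rw [monomial_zero_left, monomial_zero_left] at this
      rw [this, if_neg]
      rintro ⟨h4, h5⟩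
      exact hij ⟨h5.symm, h4.symm⟩
  have h2 : cf p 0 0 ≠ 0 := by
    intro h3
    apply hp
    rw [h1, h3]; simp
  rw [h1]
  exact (isUnit_C.mpr (isUnit_C.mpr (isUnit_iff_ne_zero.mpr h2)))

/-- `(1 - h)^{-1}` -/
noncomputable def gi : S2 := (1 - MvPowerSeries.X 0)⁻¹

lemma one_sub_mul_gi : (1 - MvPowerSeries.X 0 : S2) * gi = 1 := by
  apply MvPowerSeries.mul_inv_cancel
  simp

noncomputable def Φ : R2 →+* S2 :=
  eval₂RingHom (eval₂RingHom (MvPowerSeries.C (σ := Fin 2) (R := ℚ)) (gi ^ 2))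
    ((1 + MvPowerSeries.X 1) * gi ^ 3)

lemma Φ_mono (i j : ℕ) (c : ℚ) : Φ (monomial j (monomial i c))
    = MvPowerSeries.C c * gi ^ (2 * i + 3 * j) * (1 + MvPowerSeries.X 1) ^ j := by
  have e1 : (monomial j (monomial i c) : R2) = C (C c) * (C X) ^ i * X ^ j := by
    rw [← C_mul_X_pow_eq_monomial, ← C_mul_X_pow_eq_monomial]
    simp
  rw [e1, map_mul, map_mul, map_pow, map_pow]
  simp only [Φ, coe_eval₂RingHom, eval₂_C, eval₂_X]
  rw [mul_pow]
  ring

/-- representation of `p` as a finite sum -/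
lemma rep (p : R2) (n : ℕ) (hn : D p ≤ n) : p = ∑ j ∈ Finset.range (n + 1),
    ∑ i ∈ Finset.range (n + 1), monomial j (monomial i (cf p i j)) := by
  apply ext2
  intro i j
  have h1 : cf (∑ j' ∈ Finset.range (n + 1), ∑ i' ∈ Finset.range (n + 1),
      monomial j' (monomial i' (cf p i' j'))) i j
      = ∑ j' ∈ Finset.range (n + 1), ∑ i' ∈ Finset.range (n + 1),
        if j' = j ∧ i' = i then cf p i' j' else 0 := by
    simp only [cf, finsetSum_coeff]
    apply Finset.sum_congr rfl
    intro j' _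
    apply Finset.sum_congr rfl
    intro i' _
    exact cf_mono i' j' i j _
  rw [h1]
  by_cases h : cf p i j = 0
  · rw [h]
    symm
    apply Finset.sum_eq_zero
    intro j' _
    apply Finset.sum_eq_zero
    intro i' _
    split_ifs with h2
    · rw [h2.1, h2.2, h]
    · rfl
  · have h2 := le_D h
    rw [Finset.sum_eq_single j, Finset.sum_eq_single i]
    · simp
    · intro i' _ h3; rw [if_neg]; tauto
    · intro h3; exact absurd (Finset.mem_range.mpr (by omega)) h3
    · intro j' _ h3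
      apply Finset.sum_eq_zero
      intro i' _
      rw [if_neg]; tauto
    · intro h3; exact absurd (Finset.mem_range.mpr (by omega)) h3

/-- the coefficient of `h^b σ^c` in the expansion at the cusp -/
noncomputable def γ (p : R2) (n b c : ℕ) : ℚ := ∑ j ∈ Finset.range (n + 1),
    ∑ i ∈ Finset.range (n + 1), cf p i j * ((-1) ^ b * ((n - (2 * i + 3 * j)).choose b : ℚ))
      * (j.choose c : ℚ)

lemma Γ_eq (p : R2) (n : ℕ) (hn : D p ≤ n) : (1 - MvPowerSeries.X 0 : S2) ^ n * Φ p
    = ∑ j ∈ Finset.range (n + 1), ∑ i ∈ Finset.range (n + 1),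
      MvPowerSeries.C (cf p i j) * (1 - MvPowerSeries.X 0) ^ (n - (2 * i + 3 * j))
        * (1 + MvPowerSeries.X 1) ^ j := by
  conv_lhs => rw [rep p n hn]
  rw [map_sum, Finset.mul_sum]
  apply Finset.sum_congr rfl
  intro j _
  rw [map_sum, Finset.mul_sum]
  apply Finset.sum_congr rfl
  intro i _
  rw [Φ_mono]
  by_cases h : cf p i j = 0
  · rw [h]; simp
  · have h2 := le_D h
    have h3 : (1 - MvPowerSeries.X 0 : S2) ^ n
        = (1 - MvPowerSeries.X 0) ^ (n - (2 * i + 3 * j))
          * (1 - MvPowerSeries.X 0) ^ (2 * i + 3 * j) := by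
      rw [← pow_add]; congr 1; omega
    have h4 : (1 - MvPowerSeries.X 0 : S2) ^ (2 * i + 3 * j) * gi ^ (2 * i + 3 * j) = 1 := by
      rw [← mul_pow, one_sub_mul_gi, one_pow]
    rw [h3]
    linear_combination (MvPowerSeries.C (cf p i j) * (1 - MvPowerSeries.X 0)
      ^ (n - (2 * i + 3 * j)) * (1 + MvPowerSeries.X 1) ^ j) * h4

/-- exponent vector -/
noncomputable def ex (b c : ℕ) : Fin 2 →₀ ℕ := Finsupp.single 0 b + Finsupp.single 1 c

lemma ex_inj {b c b' c' : ℕ} (h : ex b c = ex b' c') : b = b' ∧ c = c' := by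
  have h0 := DFunLike.congr_fun h 0
  have h1 := DFunLike.congr_fun h 1
  simp [ex] at h0 h1
  exact ⟨h0, h1⟩

lemma ex_surj (e : Fin 2 →₀ ℕ) : e = ex (e 0) (e 1) := by
  ext i
  fin_cases i <;> simp [ex]

lemma expand1 (M j n : ℕ) (hM : M ≤ n) (hj : j ≤ n) (a : ℚ) :
    MvPowerSeries.C a * (1 - MvPowerSeries.X 0 : S2) ^ M * (1 + MvPowerSeries.X 1) ^ j
    = ∑ b ∈ Finset.range (n + 1), ∑ c ∈ Finset.range (n + 1),
      MvPowerSeries.monomial (ex b c) (a * ((-1) ^ b * (M.choose b : ℚ)) * (j.choose c : ℚ)) := by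
  have h1 : (1 - MvPowerSeries.X 0 : S2) ^ M = ∑ b ∈ Finset.range (n + 1),
      MvPowerSeries.monomial (Finsupp.single 0 b) ((-1) ^ b * (M.choose b : ℚ)) := by
    rw [sub_eq_add_neg, add_comm, add_pow]
    rw [← Finset.sum_subset (Finset.range_mono (Nat.succ_le_succ hM))]
    · apply Finset.sum_congr rfl
      intro b _
      rw [one_pow, mul_one, neg_pow, MvPowerSeries.X_pow_eq, ← MvPowerSeries.monomial_zero_one]
      have e1 : ((-1 : S2)) ^ b = MvPowerSeries.monomial 0 ((-1 : ℚ) ^ b) := by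
        rw [MvPowerSeries.monomial_zero_eq_C_apply, map_pow, map_neg, map_one]
      have e2 : ((M.choose b : ℕ) : S2) = MvPowerSeries.monomial 0 ((M.choose b : ℕ) : ℚ) := by
        rw [MvPowerSeries.monomial_zero_eq_C_apply, map_natCast]
      rw [MvPowerSeries.monomial_zero_one, e1, e2, MvPowerSeries.monomial_mul_monomial,
        MvPowerSeries.monomial_mul_monomial]
      simp
    · intro b _ hb
      have : M.choose b = 0 := Nat.choose_eq_zero_of_lt (by simpa using hb)
      rw [this]; simp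
  have h2 : (1 + MvPowerSeries.X 1 : S2) ^ j = ∑ c ∈ Finset.range (n + 1),
      MvPowerSeries.monomial (Finsupp.single 1 c) (j.choose c : ℚ) := by
    rw [add_comm, add_pow]
    rw [← Finset.sum_subset (Finset.range_mono (Nat.succ_le_succ hj))]
    · apply Finset.sum_congr rfl
      intro b _
      rw [one_pow, mul_one, MvPowerSeries.X_pow_eq]
      have e2 : ((j.choose b : ℕ) : S2) = MvPowerSeries.monomial 0 ((j.choose b : ℕ) : ℚ) := by
        rw [MvPowerSeries.monomial_zero_eq_C_apply, map_natCast]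
      rw [e2, MvPowerSeries.monomial_mul_monomial]
      simp
    · intro b _ hb
      have : j.choose b = 0 := Nat.choose_eq_zero_of_lt (by simpa using hb)
      rw [this]; simp
  rw [h1, h2, mul_assoc, Finset.sum_mul_sum, Finset.mul_sum]
  apply Finset.sum_congr rfl
  intro b _
  rw [Finset.mul_sum]
  apply Finset.sum_congr rfl
  intro c _
  rw [← MvPowerSeries.monomial_zero_eq_C_apply, MvPowerSeries.monomial_mul_monomial,
    MvPowerSeries.monomial_mul_monomial, zero_add, ← mul_assoc]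
  rfl

lemma Γ_expand (p : R2) (n : ℕ) (hn : D p ≤ n) : (1 - MvPowerSeries.X 0 : S2) ^ n * Φ p
    = ∑ b ∈ Finset.range (n + 1), ∑ c ∈ Finset.range (n + 1),
      MvPowerSeries.monomial (ex b c) (γ p n b c) := by
  rw [Γ_eq p n hn]
  have h1 : ∀ j ∈ Finset.range (n + 1), ∀ i ∈ Finset.range (n + 1),
      MvPowerSeries.C (cf p i j) * (1 - MvPowerSeries.X 0 : S2) ^ (n - (2 * i + 3 * j))
        * (1 + MvPowerSeries.X 1) ^ j = ∑ b ∈ Finset.range (n + 1), ∑ c ∈ Finset.range (n + 1),
      MvPowerSeries.monomial (ex b c) (cf p i j * ((-1) ^ b *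
        ((n - (2 * i + 3 * j)).choose b : ℚ)) * (j.choose c : ℚ)) := by
    intro j hj i _
    exact expand1 _ _ n (by omega) (by simpa [Nat.lt_succ_iff] using hj) _
  rw [Finset.sum_congr rfl fun j hj => Finset.sum_congr rfl fun i hi => h1 j hj i hi]
  simp only [γ, map_sum]
  rw [Finset.sum_congr rfl fun j _ => Finset.sum_comm, Finset.sum_comm]
  apply Finset.sum_congr rfl
  intro b _
  rw [Finset.sum_congr rfl fun j _ => Finset.sum_comm, Finset.sum_comm]

lemma coeff_Γ (p : R2) (n : ℕ) (hn : D p ≤ n) (b c : ℕ) (hb : b ≤ n) (hc : c ≤ n) :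
    MvPowerSeries.coeff (ex b c) ((1 - MvPowerSeries.X 0 : S2) ^ n * Φ p) = γ p n b c := by
  rw [Γ_expand p n hn, map_sum, Finset.sum_eq_single b, map_sum, Finset.sum_eq_single c]
  · rw [MvPowerSeries.coeff_monomial_same]
  · intro c' _ h
    rw [MvPowerSeries.coeff_monomial_ne]
    intro h2
    exact h (ex_inj h2).2.symm
  · intro h; exact absurd (Finset.mem_range.mpr (by omega)) h
  · intro b' _ h
    rw [map_sum]
    apply Finset.sum_eq_zero
    intro c' _
    rw [MvPowerSeries.coeff_monomial_ne]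
    intro h2
    exact h (ex_inj h2).1.symm
  · intro h; exact absurd (Finset.mem_range.mpr (by omega)) h

lemma γ_big {p : R2} {n b c : ℕ} (h : n < b ∨ n < c) : γ p n b c = 0 := by
  apply Finset.sum_eq_zero
  intro j hj
  apply Finset.sum_eq_zero
  intro i _
  have hj' : j ≤ n := by simpa [Nat.lt_succ_iff] using hj
  rcases h with h | h
  · have : (n - (2 * i + 3 * j)).choose b = 0 := Nat.choose_eq_zero_of_lt (by omega)
    rw [this]; simp
  · have : j.choose c = 0 := Nat.choose_eq_zero_of_lt (by omega)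
    rw [this]; simp

lemma weight_ex (A1 A2 b c : ℕ) : Finsupp.weight ![A1, A2] (ex b c) = b * A1 + c * A2 := by
  rw [ex, map_add, Finsupp.weight_single, Finsupp.weight_single]
  simp

lemma wo_unit (w : Fin 2 → ℕ) (n : ℕ) :
    ((1 - MvPowerSeries.X 0 : S2) ^ n).weightedOrder w = 0 := by
  have h1 : MvPowerSeries.coeff 0 ((1 - MvPowerSeries.X 0 : S2) ^ n) ≠ 0 := by
    rw [MvPowerSeries.coeff_zero_eq_constantCoeff_apply]
    simp
  have := MvPowerSeries.weightedOrder_le w h1
  simpa using this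

/-- the monomial valuation at the cusp -/
noncomputable def v (A1 A2 : ℕ) (p : R2) : ℕ∞ := (Φ p).weightedOrder ![A1, A2]

lemma v_mul (A1 A2 : ℕ) (p q : R2) : v A1 A2 (p * q) = v A1 A2 p + v A1 A2 q := by
  rw [v, map_mul, MvPowerSeries.weightedOrder_mul, v, v]

lemma v_eq (A1 A2 : ℕ) (p : R2) (n : ℕ) :
    v A1 A2 p = ((1 - MvPowerSeries.X 0 : S2) ^ n * Φ p).weightedOrder ![A1, A2] := by
  rw [MvPowerSeries.weightedOrder_mul, wo_unit, zero_add, v]

lemma γ_zero_of_v {A1 A2 : ℕ} {p : R2} {n : ℕ} (hn : D p ≤ n) {W : ℕ} (hW : (W : ℕ∞) < v A1 A2 p)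
    (b c : ℕ) (h : b * A1 + c * A2 ≤ W) : γ p n b c = 0 := by
  by_cases hbc : n < b ∨ n < c
  · exact γ_big hbc
  · push Not at hbc
    rw [← coeff_Γ p n hn b c hbc.1 hbc.2]
    apply MvPowerSeries.coeff_eq_zero_of_lt_weightedOrder ![A1, A2]
    rw [← v_eq, weight_ex]
    refine lt_of_le_of_lt ?_ hW
    exact_mod_cast h

lemma v_of_γ_zero {A1 A2 : ℕ} {p : R2} {n : ℕ} (hn : D p ≤ n) {W : ℕ}
    (h : ∀ b c : ℕ, b * A1 + c * A2 ≤ W → γ p n b c = 0) : (W : ℕ∞) < v A1 A2 p := by
  rw [v_eq A1 A2 p n]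
  have : ((W + 1 : ℕ) : ℕ∞) ≤ ((1 - MvPowerSeries.X 0 : S2) ^ n * Φ p).weightedOrder ![A1, A2] := by
    apply MvPowerSeries.nat_le_weightedOrder
    intro e he
    rw [ex_surj e] at he ⊢
    rw [weight_ex] at he
    by_cases hbc : n < e 0 ∨ n < e 1
    · rw [Γ_expand p n hn, map_sum]
      apply Finset.sum_eq_zero
      intro b hb
      rw [map_sum]
      apply Finset.sum_eq_zero
      intro c hc
      rw [MvPowerSeries.coeff_monomial_ne]
      intro h2
      have h3 := ex_inj h2
      simp only [Finset.mem_range] at hb hc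
      omega
    · push Not at hbc
      rw [coeff_Γ p n hn _ _ hbc.1 hbc.2]
      exact h _ _ (by omega)
  refine lt_of_lt_of_le ?_ this
  exact_mod_cast Nat.lt_succ_self W

/-- `p` is unexpectedly small at the cusp -/
def Good (A1 A2 N : ℕ) (p : R2) : Prop := p ≠ 0 ∧ ((N * D p : ℕ) : ℕ∞) < v A1 A2 p

lemma Good.of_mul {A1 A2 N : ℕ} {p q : R2} (h : Good A1 A2 N (p * q)) :
    Good A1 A2 N p ∨ Good A1 A2 N q := by
  obtain ⟨h0, h1⟩ := h
  have hp : p ≠ 0 := left_ne_zero_of_mul h0
  have hq : q ≠ 0 := right_ne_zero_of_mul h0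
  by_contra hcon
  push Not at hcon
  have h2 : v A1 A2 p ≤ ((N * D p : ℕ) : ℕ∞) := not_lt.mp fun h => hcon.1 ⟨hp, h⟩
  have h3 : v A1 A2 q ≤ ((N * D q : ℕ) : ℕ∞) := not_lt.mp fun h => hcon.2 ⟨hq, h⟩
  rw [v_mul, D_mul hp hq] at h1
  have h4 := add_le_add h2 h3
  rw [← Nat.cast_add, ← Nat.mul_add] at h4
  exact absurd (lt_of_lt_of_le h1 h4) (lt_irrefl _)

lemma Good.D_pos {A1 A2 N : ℕ} {p : R2} (h : Good A1 A2 N p) : 0 < D p := by
  rcases Nat.eq_zero_or_pos (D p) with h0 | h0
  · exfalso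
    have hu := (isUnit_of_D h.1 h0).map Φ
    have h1 := h.2
    rw [h0, v] at h1
    have h2 : MvPowerSeries.coeff 0 (Φ p) ≠ 0 := by
      rw [MvPowerSeries.coeff_zero_eq_constantCoeff_apply]
      exact (MvPowerSeries.isUnit_iff_constantCoeff.mp hu).ne_zero
    have h3 := MvPowerSeries.weightedOrder_le ![A1, A2] h2
    simp at h3 h1
    exact absurd h3 h1.ne'
  · exact h0

/-- existence of an irreducible good polynomial -/
lemma exists_irreducible {A1 A2 N : ℕ} (h : ∃ p, Good A1 A2 N p) :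
    ∃ p, Good A1 A2 N p ∧ Irreducible p := by
  classical
  have hex : ∃ n, ∃ p, Good A1 A2 N p ∧ D p = n := by
    obtain ⟨p, hp⟩ := h
    exact ⟨D p, p, hp, rfl⟩
  obtain ⟨p, hp, hD⟩ := Nat.find_spec hex
  refine ⟨p, hp, ?_⟩
  rw [irreducible_iff]
  constructor
  · intro hu
    obtain ⟨q, hq⟩ := hu.exists_right_inv
    have hq0 : q ≠ 0 := by rintro rfl; simp at hq
    have h1 := D_mul hp.1 hq0
    rw [hq] at h1
    have h2 : D (1 : R2) ≤ 0 := by
      apply D_le
      intro i j hij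
      have := cf_mono 0 0 i j 1
      rw [monomial_zero_left, monomial_zero_left, map_one, map_one] at this
      rw [this] at hij
      split_ifs at hij with h3
      · omega
      · exact absurd rfl hij
    have := hp.D_pos
    omega
  · intro a b hab
    have hne := hp.1
    rw [hab] at hne
    have ha : a ≠ 0 := left_ne_zero_of_mul hne
    have hb : b ≠ 0 := right_ne_zero_of_mul hne
    have h1 := D_mul ha hb
    rw [← hab, hD] at h1
    by_contra hcon
    push Not at hcon
    have ha0 : D a ≠ 0 := fun h => hcon.1 (isUnit_of_D ha h)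
    have hb0 : D b ≠ 0 := fun h => hcon.2 (isUnit_of_D hb h)
    rw [hab] at hp
    rcases hp.of_mul with h2 | h2
    · exact Nat.find_min hex (m := D a) (by omega) ⟨a, h2, rfl⟩
    · exact Nat.find_min hex (m := D b) (by omega) ⟨b, h2, rfl⟩

end Pool.Agent.H453R2.Thue
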