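import Pool.Agent.H453R2.Thue.Alg

set_option autoImplicit false

namespace Pool.Agent.H453R2.Thue

open Polynomial

section Eval

variable {K : Type*} [Field K] [CharZero K]

lemma pow_expand (M n : ℕ) (hM : M ≤ n) (z : K) :
    z ^ M = ∑ b ∈ Finset.range (n + 1), ((-1) ^ b * (M.choose b : K)) * (1 - z) ^ b := by
  have h1 : z ^ M = (-(1 - z) + 1) ^ M := by congr 1; ring
  rw [h1, add_pow]
  rw [← Finset.sum_subset (Finset.range_mono (Nat.succ_le_succ hM))]
  · apply Finset.sum_congr rfl
    intro b _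
    rw [one_pow, neg_pow]; ring
  · intro b _ hb
    have : M.choose b = 0 := Nat.choose_eq_zero_of_lt (by simpa using hb)
    rw [this]; simp

lemma pow_expand' (j n : ℕ) (hj : j ≤ n) (s : K) :
    s ^ j = ∑ c ∈ Finset.range (n + 1), (j.choose c : K) * (s - 1) ^ c := by
  have h1 : s ^ j = ((s - 1) + 1) ^ j := by congr 1; ring
  rw [h1, add_pow]
  rw [← Finset.sum_subset (Finset.range_mono (Nat.succ_le_succ hj))]
  · apply Finset.sum_congr rfl
    intro b _
    rw [one_pow]; ring
  · intro b _ hb
    have : j.choose b = 0 := Nat.choose_eq_zero_of_lt (by simpa using hb)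
    rw [this]; simp

lemma dpow_expand (M n : ℕ) (hM : M ≤ n) (z : K) :
    (M : K) * z ^ (M - 1) = -∑ b ∈ Finset.range (n + 1),
      (b : K) * ((-1) ^ b * (M.choose b : K)) * (1 - z) ^ (b - 1) := by
  -- work with polynomials
  have h1 : (X : K[X]) ^ M = ∑ b ∈ Finset.range (n + 1),
      C ((-1) ^ b * (M.choose b : K)) * (1 - X) ^ b := by
    apply Polynomial.funext
    intro z
    rw [eval_pow, eval_X, eval_finsetSum, pow_expand M n hM z]
    apply Finset.sum_congr rfl
    intro b _
    simp
  have h2 := congrArg (fun f => eval z (derivative f)) h1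
  simp only [derivative_X_pow, eval_mul, eval_C, eval_pow, eval_X] at h2
  rw [h2, derivative_sum, eval_finsetSum, ← Finset.sum_neg_distrib]
  apply Finset.sum_congr rfl
  intro b _
  rw [derivative_C_mul, derivative_pow]
  simp
  ring

/-- the expansion at the cusp -/
noncomputable def ex2 (K : Type*) [Field K] [CharZero K] (p : R2) (n : ℕ) (z s : K) : K :=
  ∑ j ∈ Finset.range (n + 1), ∑ i ∈ Finset.range (n + 1),
    (cf p i j : K) * z ^ (n - (2 * i + 3 * j)) * s ^ j

lemma ex2_eq (p : R2) (n : ℕ) (z s : K) : ex2 K p n z s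
    = ∑ b ∈ Finset.range (n + 1), ∑ c ∈ Finset.range (n + 1),
      (γ p n b c : K) * (1 - z) ^ b * (s - 1) ^ c := by
  have h1 : ∀ j ∈ Finset.range (n + 1), ∀ i ∈ Finset.range (n + 1),
      (cf p i j : K) * z ^ (n - (2 * i + 3 * j)) * s ^ j
      = ∑ b ∈ Finset.range (n + 1), ∑ c ∈ Finset.range (n + 1),
        (cf p i j : K) * ((-1) ^ b * ((n - (2 * i + 3 * j)).choose b : K)) * (j.choose c : K)
          * (1 - z) ^ b * (s - 1) ^ c := by
    intro j hj i _
    have hj' : j ≤ n := by simpa [Nat.lt_succ_iff] using hj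
    rw [pow_expand (n - (2 * i + 3 * j)) n (by omega) z, pow_expand' j n hj' s, mul_assoc,
      Finset.sum_mul_sum, Finset.mul_sum]
    apply Finset.sum_congr rfl
    intro b _
    rw [Finset.mul_sum]
    apply Finset.sum_congr rfl
    intro c _
    ring
  rw [ex2, Finset.sum_congr rfl fun j hj => Finset.sum_congr rfl fun i hi => h1 j hj i hi]
  rw [Finset.sum_congr rfl fun j _ => Finset.sum_comm, Finset.sum_comm]
  apply Finset.sum_congr rfl
  intro b _
  rw [Finset.sum_congr rfl fun j _ => Finset.sum_comm, Finset.sum_comm]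
  apply Finset.sum_congr rfl
  intro c _
  rw [γ]
  push_cast
  rw [Finset.sum_mul, Finset.sum_mul]
  apply Finset.sum_congr rfl
  intro j _
  rw [Finset.sum_mul, Finset.sum_mul]

/-- the `u`-derivative at the cusp -/
noncomputable def ex2' (K : Type*) [Field K] [CharZero K] (p : R2) (n : ℕ) (z s : K) : K :=
  ∑ j ∈ Finset.range (n + 1), ∑ i ∈ Finset.range (n + 1),
    (cf p i j : K) * ((n - (2 * i + 3 * j) : ℕ) * z ^ (n - (2 * i + 3 * j) - 1)) * s ^ j

lemma ex2'_eq (p : R2) (n : ℕ) (z s : K) : ex2' K p n z s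
    = -∑ b ∈ Finset.range (n + 1), ∑ c ∈ Finset.range (n + 1),
      (b : K) * (γ p n b c : K) * (1 - z) ^ (b - 1) * (s - 1) ^ c := by
  have h1 : ∀ j ∈ Finset.range (n + 1), ∀ i ∈ Finset.range (n + 1),
      (cf p i j : K) * ((n - (2 * i + 3 * j) : ℕ) * z ^ (n - (2 * i + 3 * j) - 1)) * s ^ j
      = -∑ b ∈ Finset.range (n + 1), ∑ c ∈ Finset.range (n + 1),
        (b : K) * ((cf p i j : K) * ((-1) ^ b * ((n - (2 * i + 3 * j)).choose b : K))
          * (j.choose c : K)) * (1 - z) ^ (b - 1) * (s - 1) ^ c := by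
    intro j hj i _
    have hj' : j ≤ n := by simpa [Nat.lt_succ_iff] using hj
    rw [dpow_expand (n - (2 * i + 3 * j)) n (by omega) z, pow_expand' j n hj' s, mul_assoc,
      neg_mul, Finset.sum_mul_sum, mul_neg, Finset.mul_sum]
    congr 1
    apply Finset.sum_congr rfl
    intro b _
    rw [Finset.mul_sum]
    apply Finset.sum_congr rfl
    intro c _
    ring
  rw [ex2', Finset.sum_congr rfl fun j hj => Finset.sum_congr rfl fun i hi => h1 j hj i hi]
  simp only [Finset.sum_neg_distrib]
  congr 1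
  rw [Finset.sum_congr rfl fun j _ => Finset.sum_comm, Finset.sum_comm]
  apply Finset.sum_congr rfl
  intro b _
  rw [Finset.sum_congr rfl fun j _ => Finset.sum_comm, Finset.sum_comm]
  apply Finset.sum_congr rfl
  intro c _
  rw [γ]
  push_cast
  rw [Finset.mul_sum, Finset.sum_mul, Finset.sum_mul]
  apply Finset.sum_congr rfl
  intro j _
  rw [Finset.mul_sum, Finset.sum_mul, Finset.sum_mul]

end Eval

/-- restriction to the cuspidal curve -/
noncomputable def Ψ0 : Polynomial ℚ →+* Polynomial ℚ := eval₂RingHom C (X ^ 2)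
noncomputable def Ψ : R2 →+* Polynomial ℚ := eval₂RingHom Ψ0 (X ^ 3)

lemma Ψ_mono (i j : ℕ) (c : ℚ) : Ψ (monomial j (monomial i c)) = C c * X ^ (2 * i + 3 * j) := by
  have e1 : (monomial j (monomial i c) : R2) = C (C c) * (C X) ^ i * X ^ j := by
    rw [← C_mul_X_pow_eq_monomial, ← C_mul_X_pow_eq_monomial]
    simp
  rw [e1, map_mul, map_mul, map_pow, map_pow]
  simp only [Ψ, Ψ0, coe_eval₂RingHom, eval₂_C, eval₂_X]
  ring

/-- the cuspidal polynomial `Y^2 - X^3` -/
noncomputable def cusp : R2 := X ^ 2 - C (X ^ 3)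

lemma cusp_monic : cusp.Monic := by
  unfold cusp
  apply monic_X_pow_sub_C _ (by norm_num)

lemma cusp_natDegree : cusp.natDegree = 2 := by
  unfold cusp
  apply natDegree_X_pow_sub_C

lemma cusp_dvd {p : R2} (h : Ψ p = 0) : cusp ∣ p := by
  rw [← modByMonic_eq_zero_iff_dvd cusp_monic]
  set r := p %ₘ cusp with hr
  have hdeg : r.natDegree < 2 := by
    have := natDegree_modByMonic_lt p cusp_monic (by
      intro h1
      have := cusp_natDegree
      rw [h1] at this
      simp at this)
    rwa [cusp_natDegree] at this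
  have hΨc : Ψ cusp = 0 := by
    simp only [cusp, map_sub, map_pow, Ψ, Ψ0, coe_eval₂RingHom, eval₂_C, eval₂_X, eval₂_sub,
      eval₂_pow]
    ring
  have h1 : Ψ r = 0 := by
    have h2 := modByMonic_add_div p cusp
    rw [← hr] at h2
    have h3 := congrArg Ψ h2
    rw [map_add, map_mul, hΨc, zero_mul, add_zero, h] at h3
    exact h3
  have h2 : r = C (r.coeff 0) + C (r.coeff 1) * X := by
    have := r.as_sum_range' 2 hdeg
    rw [Finset.sum_range_succ, Finset.sum_range_one] at this
    rw [← C_mul_X_pow_eq_monomial, ← C_mul_X_pow_eq_monomial] at this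
    simpa using this
  set a := r.coeff 0
  set b := r.coeff 1
  have hE : ∀ f : Polynomial ℚ, Ψ0 f = expand ℚ 2 f := by
    intro f
    simp [Ψ0, expand_eq_comp_X_pow, comp]
  have h3 : expand ℚ 2 a + expand ℚ 2 b * X ^ 3 = 0 := by
    have h4 := h1
    rw [h2, map_add, map_mul] at h4
    simp only [Ψ, coe_eval₂RingHom, eval₂_C, eval₂_X] at h4
    rw [hE, hE] at h4
    exact h4
  have ha : a = 0 := by
    ext k
    have h4 := congrArg (fun f => f.coeff (2 * k)) h3
    simp only [coeff_add, coeff_zero] at h4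
    rw [mul_comm 2 k, coeff_expand_mul (by norm_num), coeff_mul_X_pow'] at h4
    split_ifs at h4 with h5
    · rw [coeff_expand (by norm_num), if_neg (by omega), add_zero] at h4
      simpa using h4
    · simpa using h4
  rw [ha, map_zero, zero_add] at h3
  have hb : b = 0 := by
    have h4 : expand ℚ 2 b = 0 := by
      rcases mul_eq_zero.mp h3 with h5 | h5
      · exact h5
      · exact absurd h5 (pow_ne_zero 3 X_ne_zero)
    rwa [expand_eq_zero (by norm_num)] at h4
  rw [h2, ha, hb]; simp

lemma Ψ_zero {p : R2} {n : ℕ} (hn : D p ≤ n) (h : ∀ b, γ p n b 0 = 0) : Ψ p = 0 := by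
  apply Polynomial.eq_zero_of_infinite_isRoot
  apply Set.Infinite.mono (s := {z : ℚ | z ≠ 0})
  · intro z hz
    have hz' : z ≠ 0 := hz
    rw [Set.mem_ofPred_eq, IsRoot]
    have h1 := ex2_eq (K := ℚ) p n (1 / z) 1
    have h2 : ex2 ℚ p n (1 / z) 1 = 0 := by
      rw [h1]
      apply Finset.sum_eq_zero
      intro b _
      apply Finset.sum_eq_zero
      intro c _
      rcases Nat.eq_zero_or_pos c with hc | hc
      · rw [hc, h b]; simp
      · rw [sub_self, zero_pow hc.ne', mul_zero]
    have h3 : eval z (Ψ p) = z ^ n * ex2 ℚ p n (1 / z) 1 := by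
      conv_lhs => rw [rep p n hn]
      rw [map_sum, eval_finsetSum, ex2, Finset.mul_sum]
      apply Finset.sum_congr rfl
      intro j _
      rw [map_sum, eval_finsetSum, Finset.mul_sum]
      apply Finset.sum_congr rfl
      intro i _
      rw [Ψ_mono]
      by_cases h4 : cf p i j = 0
      · rw [h4]; simp
      · have h5 := le_D h4
        have h6 : z ^ n = z ^ (2 * i + 3 * j) * z ^ (n - (2 * i + 3 * j)) := by
          rw [← pow_add]; congr 1; omega
        rw [h6]
        simp only [eval_mul, eval_C, eval_pow, eval_X, Rat.cast_id, one_pow, mul_one]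
        have h7 : z ^ (n - (2 * i + 3 * j)) * (1 / z) ^ (n - (2 * i + 3 * j)) = 1 := by
          rw [← mul_pow, mul_one_div_cancel hz', one_pow]
        linear_combination (-(z ^ (2 * i + 3 * j) * cf p i j)) * h7
    rw [h3, h2, mul_zero]
  · exact (Set.finite_singleton (0 : ℚ)).infinite_compl

lemma cusp_not_good {A1 A2 N : ℕ} (hA2 : A2 < 6 * N) : ¬ Good A1 A2 N cusp := by
  intro h
  have hcf : ∀ i j, cf cusp i j = (if 2 = j ∧ 0 = i then 1 else 0) - (if 0 = j ∧ 3 = i then 1 else 0) := by
    intro i j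
    have e : cusp = monomial 2 (monomial 0 1) - monomial 0 (monomial 3 1) := by
      unfold cusp
      rw [← C_mul_X_pow_eq_monomial, ← C_mul_X_pow_eq_monomial, ← C_mul_X_pow_eq_monomial,
        ← C_mul_X_pow_eq_monomial]
      simp
    rw [e]
    have := cf_mono 0 2 i j 1
    have h2 := cf_mono 3 0 i j 1
    rw [← this, ← h2]
    simp [cf]
  have hD : D cusp ≤ 6 := by
    apply D_le
    intro i j hij
    rw [hcf] at hij
    by_cases h1 : 2 = j ∧ 0 = i
    · omega
    · by_cases h2 : 0 = j ∧ 3 = i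
      · omega
      · rw [if_neg h1, if_neg h2] at hij; simp at hij
  have hD2 : 6 ≤ D cusp := by
    have h1 : cf cusp 0 2 ≠ 0 := by rw [hcf]; norm_num
    have := le_D h1
    omega
  have hD3 : D cusp = 6 := le_antisymm hD hD2
  have h1 := γ_zero_of_v (n := 6) hD h.2 0 1 (by rw [hD3]; omega)
  rw [γ] at h1
  simp only [hcf] at h1
  simp [Finset.sum_range_succ] at h1

lemma D_unit {p : R2} (h : IsUnit p) : D p = 0 := by
  obtain ⟨q, hq⟩ := h.exists_right_inv
  have hp0 : p ≠ 0 := by rintro rfl; simp at hq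
  have hq0 : q ≠ 0 := by rintro rfl; simp at hq
  have h1 := D_mul hp0 hq0
  rw [hq] at h1
  have h2 : D (1 : R2) ≤ 0 := by
    apply D_le
    intro i j hij
    have := cf_mono 0 0 i j 1
    rw [monomial_zero_left, monomial_zero_left, map_one, map_one] at this
    rw [this] at hij
    split_ifs at hij with h3
    · omega
    · exact absurd rfl hij
  omega

lemma cusp_not_unit : ¬ IsUnit cusp := by
  intro h
  have h1 := D_unit h
  have h2 := natDegree_eq_zero_of_isUnit h
  rw [cusp_natDegree] at h2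
  omega

lemma exists_γ_ne {A1 A2 N : ℕ} {p : R2} (hp : Good A1 A2 N p) (hirr : Irreducible p)
    (hA2 : A2 < 6 * N) : ∃ b, γ p (D p) b 0 ≠ 0 := by
  by_contra hcon
  push Not at hcon
  obtain ⟨r, hr⟩ := cusp_dvd (Ψ_zero le_rfl hcon)
  have h1 := hirr
  rw [hr, irreducible_mul_iff] at h1
  rw [hr] at hp
  rcases hp.of_mul with h2 | h2
  · exact cusp_not_good hA2 h2
  · rcases h1 with h3 | h3
    · have := D_unit h3.2
      have := h2.D_pos
      omega
    · exact cusp_not_unit h3.2

lemma seven_le {A1 A2 N : ℕ} {p : R2} (hp : Good A1 A2 N p) (hirr : Irreducible p)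
    (hA2 : A2 < 6 * N) (hA1 : 5 * A1 ≤ 6 * N) : 7 ≤ D p := by
  by_contra hcon
  push Not at hcon
  set n := D p with hn
  have hpos : 0 < n := hp.D_pos
  have hsmall : ∀ b, b < n → γ p n b 0 = 0 := by
    intro b hb
    apply γ_zero_of_v le_rfl hp.2
    rw [← hn, zero_mul, add_zero]
    nlinarith
  have hall : γ p n n 0 = 0 := by
    have h1 : ∑ j ∈ Finset.range (n + 1), ∑ i ∈ Finset.range (n + 1),
        C (cf p i j) * (X : ℚ[X]) ^ (n - (2 * i + 3 * j)) = C (γ p n n 0) * (1 - X) ^ n := by
      apply Polynomial.funext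
      intro z
      have h2 := ex2_eq (K := ℚ) p n z 1
      have h3 : ∑ b ∈ Finset.range (n + 1), ∑ c ∈ Finset.range (n + 1),
          (γ p n b c : ℚ) * (1 - z) ^ b * (1 - 1) ^ c = γ p n n 0 * (1 - z) ^ n := by
        rw [Finset.sum_eq_single n, Finset.sum_eq_single 0]
        · simp
        · intro c _ hc; rw [sub_self, zero_pow hc, mul_zero]
        · intro h; exact absurd (Finset.mem_range.mpr (by omega)) h
        · intro b hb hbn
          have hb' : b < n := lt_of_le_of_ne (by simpa [Nat.lt_succ_iff] using hb) hbn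
          apply Finset.sum_eq_zero
          intro c _
          rcases Nat.eq_zero_or_pos c with hc | hc
          · rw [hc, hsmall b hb']; simp
          · rw [sub_self, zero_pow hc.ne', mul_zero]
        · intro h; exact absurd (Finset.mem_range.mpr (by omega)) h
      simp only [Rat.cast_id] at h2
      rw [h3, ex2] at h2
      simp only [Rat.cast_id, one_pow, mul_one] at h2
      rw [eval_finsetSum]
      simp only [eval_finsetSum, eval_mul, eval_C, eval_pow, eval_X, eval_sub, eval_one]
      exact h2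
    have h4 := congrArg (fun f => f.coeff (n - 1)) h1
    simp only [finsetSum_coeff, coeff_C_mul] at h4
    have h5 : ∑ j ∈ Finset.range (n + 1), ∑ i ∈ Finset.range (n + 1),
        cf p i j * ((X : ℚ[X]) ^ (n - (2 * i + 3 * j))).coeff (n - 1) = 0 := by
      apply Finset.sum_eq_zero
      intro j _
      apply Finset.sum_eq_zero
      intro i _
      by_cases h6 : cf p i j = 0
      · rw [h6, zero_mul]
      · have h7 := le_D h6
        rw [coeff_X_pow, if_neg (by omega), mul_zero]
    rw [h5] at h4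
    have h8 : ((1 - X : ℚ[X]) ^ n).coeff (n - 1) ≠ 0 := by
      have e1 : (1 - X : ℚ[X]) ^ n = C ((-1) ^ n) * (X + C (-1)) ^ n := by
        rw [C_pow, ← mul_pow]; congr 1
        simp
        ring
      rw [e1, coeff_C_mul, coeff_X_add_C_pow]
      have e2 : n - (n - 1) = 1 := by omega
      have e3 : n.choose (n - 1) = n := by
        rw [Nat.choose_symm_of_eq_add (show n = (n - 1) + 1 by omega), Nat.choose_one_right]
      rw [e2, e3]
      have : (n : ℚ) ≠ 0 := by exact_mod_cast hpos.ne'
      have h9 : ((-1 : ℚ)) ^ n ≠ 0 := pow_ne_zero _ (by norm_num)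
      simp [this]
    rcases mul_eq_zero.mp h4.symm with h9 | h9
    · exact h9
    · exact absurd h9 h8
  obtain ⟨b, hb⟩ := exists_γ_ne hp hirr hA2
  apply hb
  rw [← hn]
  rcases lt_trichotomy b n with h | h | h
  · exact hsmall b h
  · rw [h, hall]
  · exact γ_big (Or.inl h)

/-- the Euler-type derivative -/
noncomputable def qd (p : R2) (n : ℕ) : R2 := ∑ j ∈ Finset.range (n + 1),
    ∑ i ∈ Finset.range (n + 1), monomial j (monomial i (cf p i j * ((n - (2 * i + 3 * j) : ℕ) : ℚ)))

lemma cf_qd (p : R2) (n : ℕ) (hn : D p ≤ n) (i j : ℕ) :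
    cf (qd p n) i j = cf p i j * ((n - (2 * i + 3 * j) : ℕ) : ℚ) := by
  have h1 : cf (qd p n) i j
      = ∑ j' ∈ Finset.range (n + 1), ∑ i' ∈ Finset.range (n + 1),
        if j' = j ∧ i' = i then cf p i' j' * ((n - (2 * i' + 3 * j') : ℕ) : ℚ) else 0 := by
    simp only [cf, qd, finsetSum_coeff]
    apply Finset.sum_congr rfl
    intro j' _
    apply Finset.sum_congr rfl
    intro i' _
    exact cf_mono i' j' i j _
  rw [h1]
  by_cases h : cf p i j = 0
  · rw [h, zero_mul]
    apply Finset.sum_eq_zero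
    intro j' _
    apply Finset.sum_eq_zero
    intro i' _
    split_ifs with h2
    · rw [h2.1, h2.2, h, zero_mul]
    · rfl
  · have h2 := le_D h
    rw [Finset.sum_eq_single j, Finset.sum_eq_single i]
    · simp
    · intro i' _ h3; rw [if_neg]; tauto
    · intro h3; exact absurd (Finset.mem_range.mpr (by omega)) h3
    · intro j' _ h3
      apply Finset.sum_eq_zero
      intro i' _
      rw [if_neg]; tauto
    · intro h3; exact absurd (Finset.mem_range.mpr (by omega)) h3

lemma qd_ne {A1 A2 N : ℕ} {p : R2} (hp : Good A1 A2 N p) (hirr : Irreducible p)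
    (hA2 : A2 < 6 * N) : qd p (D p) ≠ 0 := by
  intro h
  set n := D p with hn
  have h1 : ∀ i j, cf p i j ≠ 0 → n - (2 * i + 3 * j) = 0 := by
    intro i j hij
    have h2 := cf_qd p n le_rfl i j
    rw [h] at h2
    have h3 : cf (0 : R2) i j = 0 := by simp [cf]
    rw [h3] at h2
    have h4 := (mul_eq_zero.mp h2.symm).resolve_left hij
    exact_mod_cast h4
  obtain ⟨b, hb⟩ := exists_γ_ne hp hirr hA2
  rw [← hn] at hb
  rcases Nat.eq_zero_or_pos b with hb0 | hb0
  · apply hb
    rw [hb0]
    apply γ_zero_of_v le_rfl hp.2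
    omega
  · apply hb
    rw [γ]
    apply Finset.sum_eq_zero
    intro j _
    apply Finset.sum_eq_zero
    intro i _
    by_cases h2 : cf p i j = 0
    · rw [h2]; simp
    · rw [h1 i j h2, Nat.choose_eq_zero_of_lt hb0]; simp

lemma not_dvd_qd {A1 A2 N : ℕ} {p : R2} (hp : Good A1 A2 N p) (hirr : Irreducible p)
    (hA2 : A2 < 6 * N) : ¬ p ∣ qd p (D p) := by
  rintro ⟨r, hr⟩
  have h0 := qd_ne hp hirr hA2
  rw [hr] at h0
  have h1 := D_mul (left_ne_zero_of_mul h0) (right_ne_zero_of_mul h0)
  have h2 : D (qd p (D p)) ≤ D p - 1 := by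
    apply D_le
    intro i j hij
    rw [cf_qd p _ le_rfl] at hij
    have h3 := le_D (left_ne_zero_of_mul hij)
    have h4 : D p - (2 * i + 3 * j) ≠ 0 := by
      intro h5
      rw [h5] at hij; simp at hij
    omega
  rw [← hr] at h1
  have := hp.D_pos
  omega

/-- Bezout/elimination of `Y`. -/
lemma elim {p q : R2} (hirr : Irreducible p) (hq : ¬ p ∣ q) :
    ∃ A B : R2, ∃ R : Polynomial ℚ, R ≠ 0 ∧ A * p + B * q = C R := by
  by_cases hdeg : p.natDegree = 0
  · refine ⟨1, 0, p.coeff 0, ?_, ?_⟩
    · intro h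
      have := eq_C_of_natDegree_eq_zero hdeg
      rw [h, map_zero] at this
      exact hirr.ne_zero this
    · rw [one_mul, zero_mul, add_zero]
      exact eq_C_of_natDegree_eq_zero hdeg
  · have hprim : p.IsPrimitive := hirr.isPrimitive hdeg
    have hirr2 := (hprim.irreducible_iff_irreducible_map_fraction_map
      (K := FractionRing (Polynomial ℚ))).mp hirr
    have hnd : ¬ p.map (algebraMap (Polynomial ℚ) (FractionRing (Polynomial ℚ)))
        ∣ q.map (algebraMap (Polynomial ℚ) (FractionRing (Polynomial ℚ))) := by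
      intro h
      exact hq (hprim.dvd_of_fraction_map_dvd_fraction_map h)
    have hcop := (hirr2.coprime_iff_not_dvd).mpr hnd
    obtain ⟨a, b, hab⟩ := hcop
    obtain ⟨c, c0, hc⟩ := IsLocalization.integerNormalization_spec (nonZeroDivisors (Polynomial ℚ)) a
    obtain ⟨d, d0, hd⟩ := IsLocalization.integerNormalization_spec (nonZeroDivisors (Polynomial ℚ)) b
    rw [mem_nonZeroDivisors_iff_ne_zero] at c0 d0
    refine ⟨C d * IsLocalization.integerNormalization (nonZeroDivisors (Polynomial ℚ)) a,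
      C c * IsLocalization.integerNormalization (nonZeroDivisors (Polynomial ℚ)) b, c * d,
      mul_ne_zero c0 d0, ?_⟩
    apply map_injective (algebraMap (Polynomial ℚ) (FractionRing (Polynomial ℚ)))
      (IsFractionRing.injective _ _)
    rw [Polynomial.map_add, Polynomial.map_mul, Polynomial.map_mul, Polynomial.map_mul,
      Polynomial.map_mul, hc, hd, map_C, map_C, map_C, Algebra.smul_def, Algebra.smul_def,
      Polynomial.algebraMap_apply, Polynomial.algebraMap_apply, map_mul, map_mul]
    linear_combination (C (algebraMap (Polynomial ℚ) (FractionRing (Polynomial ℚ)) c)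
      * C (algebraMap (Polynomial ℚ) (FractionRing (Polynomial ℚ)) d)) * hab

end Pool.Agent.H453R2.Thue
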