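import Pool.Agent.H453R2.Thue.Exist

set_option autoImplicit false

namespace Pool.Agent.H453R2.Thue

open Polynomial

/-- the homogeneous form attached to `p` -/
noncomputable def ev (p : R2) (n : ℕ) (x y u : ℝ) : ℝ :=
  ∑ j ∈ Finset.range (n + 1), ∑ i ∈ Finset.range (n + 1),
    (cf p i j : ℝ) * (x ^ i * y ^ j * u ^ (n - (2 * i + 3 * j)))

/-- its `u`-derivative -/
noncomputable def ev' (p : R2) (n : ℕ) (x y u : ℝ) : ℝ :=
  ∑ j ∈ Finset.range (n + 1), ∑ i ∈ Finset.range (n + 1),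
    (cf p i j : ℝ) * (x ^ i * y ^ j * ((n - (2 * i + 3 * j) : ℕ) * u ^ (n - (2 * i + 3 * j) - 1)))

lemma ev_eq (p : R2) (n : ℕ) (hn : D p ≤ n) (m z s : ℝ) :
    ev p n (m ^ 2) (m ^ 3 * s) (m * z) = m ^ n * ex2 ℝ p n z s := by
  rw [ev, ex2, Finset.mul_sum]
  apply Finset.sum_congr rfl
  intro j _
  rw [Finset.mul_sum]
  apply Finset.sum_congr rfl
  intro i _
  by_cases h : cf p i j = 0
  · rw [h]; simp
  · have h2 := le_D h
    have h3 : m ^ n = m ^ (2 * i) * m ^ (3 * j) * m ^ (n - (2 * i + 3 * j)) := by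
      rw [← pow_add, ← pow_add]; congr 1; omega
    rw [h3, mul_pow, mul_pow, ← pow_mul, ← pow_mul]
    ring

lemma ev'_eq (p : R2) (n : ℕ) (hn : D p ≤ n) (m z s : ℝ) :
    ev' p n (m ^ 2) (m ^ 3 * s) (m * z) = m ^ (n - 1) * ex2' ℝ p n z s := by
  rw [ev', ex2', Finset.mul_sum]
  apply Finset.sum_congr rfl
  intro j _
  rw [Finset.mul_sum]
  apply Finset.sum_congr rfl
  intro i _
  by_cases h : cf p i j = 0
  · rw [h]; simp
  · have h2 := le_D h
    rcases Nat.eq_zero_or_pos (n - (2 * i + 3 * j)) with h4 | h4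
    · rw [h4]; simp
    · have h3 : m ^ (n - 1) = m ^ (2 * i) * m ^ (3 * j) * m ^ (n - (2 * i + 3 * j) - 1) := by
        rw [← pow_add, ← pow_add]; congr 1; omega
      rw [h3, mul_pow, mul_pow, ← pow_mul, ← pow_mul]
      ring

noncomputable def evR0 (X : ℝ) : Polynomial ℚ →+* ℝ := eval₂RingHom (algebraMap ℚ ℝ) X
noncomputable def evR (X Y : ℝ) : R2 →+* ℝ := eval₂RingHom (evR0 X) Y

lemma evR_mono (X Y : ℝ) (i j : ℕ) (c : ℚ) : evR X Y (monomial j (monomial i c))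
    = (c : ℝ) * X ^ i * Y ^ j := by
  have e1 : (monomial j (monomial i c) : R2) = C (C c) * (C Polynomial.X) ^ i * Polynomial.X ^ j := by
    rw [← C_mul_X_pow_eq_monomial, ← C_mul_X_pow_eq_monomial]
    simp
  rw [e1, map_mul, map_mul, map_pow, map_pow]
  simp only [evR, evR0, coe_eval₂RingHom, eval₂_C, eval₂_X]
  rfl

lemma ev_evR (p : R2) (n : ℕ) (hn : D p ≤ n) (x y u : ℝ) (hu : u ≠ 0) :
    ev p n x y u = u ^ n * evR (x / u ^ 2) (y / u ^ 3) p := by
  conv_rhs => rw [rep p n hn]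
  rw [ev, map_sum, Finset.mul_sum]
  apply Finset.sum_congr rfl
  intro j _
  rw [map_sum, Finset.mul_sum]
  apply Finset.sum_congr rfl
  intro i _
  rw [evR_mono]
  by_cases h : cf p i j = 0
  · rw [h]; simp
  · have h2 := le_D h
    have h3 : u ^ n = u ^ (2 * i) * u ^ (3 * j) * u ^ (n - (2 * i + 3 * j)) := by
      rw [← pow_add, ← pow_add]; congr 1; omega
    rw [h3, div_pow, div_pow, ← pow_mul, ← pow_mul]
    field_simp

lemma ev'_evR (p : R2) (n : ℕ) (hn : D p ≤ n) (x y u : ℝ) (hu : u ≠ 0) :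
    u * ev' p n x y u = u ^ n * evR (x / u ^ 2) (y / u ^ 3) (qd p n) := by
  rw [ev', qd, map_sum, Finset.mul_sum, Finset.mul_sum]
  apply Finset.sum_congr rfl
  intro j _
  rw [map_sum, Finset.mul_sum, Finset.mul_sum]
  apply Finset.sum_congr rfl
  intro i _
  rw [evR_mono]
  by_cases h : cf p i j = 0
  · rw [h]; simp
  · have h2 := le_D h
    rcases Nat.eq_zero_or_pos (n - (2 * i + 3 * j)) with h4 | h4
    · rw [h4]; simp
    · have h3 : u ^ n = u ^ (2 * i) * u ^ (3 * j) * (u * u ^ (n - (2 * i + 3 * j) - 1)) := by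
        rw [← pow_succ', ← pow_add, ← pow_add]; congr 1; omega
      rw [h3, div_pow, div_pow, ← pow_mul, ← pow_mul]
      push_cast
      field_simp

/-- common denominator -/
lemma clear (p : R2) (n : ℕ) : ∃ L : ℕ, 0 < L ∧ ∀ i j, i ≤ n → j ≤ n →
    ∃ z : ℤ, (L : ℝ) * (cf p i j : ℝ) = z := by
  refine ⟨∏ j ∈ Finset.range (n + 1), ∏ i ∈ Finset.range (n + 1), (cf p i j).den, ?_, ?_⟩
  · apply Finset.prod_pos
    intro j _
    apply Finset.prod_pos
    intro i _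
    exact Rat.den_pos _
  · intro i j hi hj
    have h1 : (cf p i j).den ∣ ∏ i ∈ Finset.range (n + 1), (cf p i j).den :=
      Finset.dvd_prod_of_mem (fun i => (cf p i j).den) (Finset.mem_range.mpr (by omega))
    have h2 : (∏ i ∈ Finset.range (n + 1), (cf p i j).den) ∣
        ∏ j ∈ Finset.range (n + 1), ∏ i ∈ Finset.range (n + 1), (cf p i j).den :=
      Finset.dvd_prod_of_mem (fun j => ∏ i ∈ Finset.range (n + 1), (cf p i j).den)
        (Finset.mem_range.mpr (by omega))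
    obtain ⟨k, hk⟩ := h1.trans h2
    refine ⟨(cf p i j).num * k, ?_⟩
    rw [hk]
    have h3 : (((cf p i j).den : ℕ) : ℚ) * cf p i j = (cf p i j).num := by
      rw [mul_comm]; exact Rat.mul_den_eq_num _
    have h4 : (((cf p i j).den : ℕ) : ℝ) * (cf p i j : ℝ) = ((cf p i j).num : ℝ) := by
      exact_mod_cast congrArg (fun q : ℚ => (q : ℝ)) h3
    push_cast
    rw [← h4]; ring

lemma ev_int {p : R2} {n L : ℕ} (hL : ∀ i j, i ≤ n → j ≤ n →
    ∃ z : ℤ, (L : ℝ) * (cf p i j : ℝ) = z) (x y u : ℤ) :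
    ∃ z : ℤ, (L : ℝ) * ev p n x y u = z := by
  choose! f hf using hL
  refine ⟨∑ j ∈ Finset.range (n + 1), ∑ i ∈ Finset.range (n + 1),
    f i j * (x ^ i * y ^ j * u ^ (n - (2 * i + 3 * j))), ?_⟩
  rw [ev, Finset.mul_sum]
  push_cast
  apply Finset.sum_congr rfl
  intro j hj
  rw [Finset.mul_sum]
  apply Finset.sum_congr rfl
  intro i hi
  rw [← hf i j (by simpa [Nat.lt_succ_iff] using hi) (by simpa [Nat.lt_succ_iff] using hj)]
  ring

lemma ev'_int {p : R2} {n L : ℕ} (hL : ∀ i j, i ≤ n → j ≤ n →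
    ∃ z : ℤ, (L : ℝ) * (cf p i j : ℝ) = z) (x y u : ℤ) :
    ∃ z : ℤ, (L : ℝ) * ev' p n x y u = z := by
  choose! f hf using hL
  refine ⟨∑ j ∈ Finset.range (n + 1), ∑ i ∈ Finset.range (n + 1),
    f i j * (x ^ i * y ^ j * ((n - (2 * i + 3 * j) : ℕ) * u ^ (n - (2 * i + 3 * j) - 1))), ?_⟩
  rw [ev', Finset.mul_sum]
  push_cast
  apply Finset.sum_congr rfl
  intro j hj
  rw [Finset.mul_sum]
  apply Finset.sum_congr rfl
  intro i hi
  rw [← hf i j (by simpa [Nat.lt_succ_iff] using hi) (by simpa [Nat.lt_succ_iff] using hj)]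
  ring

lemma pow_bound {m H S a e : ℝ} (hm : 1 ≤ m) (hH0 : 0 ≤ H) (hS0 : 0 ≤ S) (hH : H ≤ m ^ (-a))
    (hS : S ≤ m ^ (-e)) (b c : ℕ) : H ^ b * S ^ c ≤ m ^ (-(b * a + c * e)) := by
  have hm0 : 0 < m := by linarith
  have h1 : H ^ b ≤ m ^ (-a * b) := by
    rw [Real.rpow_mul hm0.le, Real.rpow_natCast]
    exact pow_le_pow_left₀ hH0 hH b
  have h2 : S ^ c ≤ m ^ (-e * c) := by
    rw [Real.rpow_mul hm0.le, Real.rpow_natCast]
    exact pow_le_pow_left₀ hS0 hS c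
  calc H ^ b * S ^ c ≤ m ^ (-a * b) * m ^ (-e * c) :=
        mul_le_mul h1 h2 (pow_nonneg hS0 c) (Real.rpow_nonneg hm0.le _)
    _ = m ^ (-(b * a + c * e)) := by rw [← Real.rpow_add hm0]; congr 1; ring

/-- finitely many roots near `1` -/
lemma root_gap (R : Polynomial ℚ) (hR : R ≠ 0) : ∃ δ : ℝ, 0 < δ ∧ ∀ X : ℝ, X ≠ 1 → |X - 1| < δ →
    evR0 X R ≠ 0 := by
  set R' := R.map (algebraMap ℚ ℝ) with hR'
  have hR0 : R' ≠ 0 := (Polynomial.map_ne_zero_iff (algebraMap ℚ ℝ).injective).mpr hR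
  have hfin : ((R'.roots.toFinset : Set ℝ) \ {1}).Finite := (Finset.finite_toSet _).subset
    Set.sdiff_subset
  have hopen : IsOpen ((R'.roots.toFinset : Set ℝ) \ {1})ᶜ := hfin.isClosed.isOpen_compl
  obtain ⟨δ, hδ, hball⟩ := Metric.isOpen_iff.mp hopen 1 (by simp)
  refine ⟨δ, hδ, ?_⟩
  intro X hX1 hX h0
  have h1 : X ∈ Metric.ball (1 : ℝ) δ := by rw [Metric.mem_ball, Real.dist_eq]; exact hX
  have h2 := hball h1
  apply h2
  refine ⟨?_, hX1⟩
  simp only [Finset.mem_coe, Multiset.mem_toFinset]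
  rw [mem_roots hR0, IsRoot, hR', eval_map]
  exact h0

end Pool.Agent.H453R2.Thue
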