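import Pool.Agent.H453R2.Thue.Alg2

set_option autoImplicit false

namespace Pool.Agent.H453R2.Thue

open Polynomial

lemma gauss_sum (a b : ℚ) (m : ℕ) : ∑ j ∈ Finset.range (m + 1), (a - b * (j : ℚ))
    = ((m : ℚ) + 1) * (a - b * m / 2) := by
  induction m with
  | zero => simp
  | succ m ih =>
    rw [Finset.sum_range_succ, ih]
    push_cast
    ring

/-- unknowns -/
def II (L : ℕ) : Finset (Σ _ : ℕ, ℕ) :=
  (Finset.range (2 * L + 1)).sigma (fun j => Finset.range ((6 * L - 3 * j) / 2 + 1))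

/-- constraints -/
def SS (A1 A2 W C : ℕ) : Finset (Σ _ : ℕ, ℕ) :=
  (Finset.range (C + 1)).sigma (fun c => Finset.range ((W - c * A2) / A1 + 1))

lemma card_II (L : ℕ) : (2 * (L : ℚ) + 1) * (3 * L + 1) / 2 ≤ ((II L).card : ℚ) := by
  rw [II, Finset.card_sigma]
  push_cast
  have h1 : ∀ j ∈ Finset.range (2 * L + 1), ((6 * L + 1) / 2 : ℚ) - 3 / 2 * (j : ℚ)
      ≤ ((Finset.range ((6 * L - 3 * j) / 2 + 1)).card : ℚ) := by
    intro j hj
    rw [Finset.mem_range] at hj
    rw [Finset.card_range]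
    have h2 : 6 * L - 3 * j + 3 * j = 6 * L := by omega
    have h3 : 6 * L - 3 * j + 1 ≤ 2 * ((6 * L - 3 * j) / 2 + 1) := by omega
    have h2' : ((6 * L - 3 * j : ℕ) : ℚ) + 3 * j = 6 * L := by exact_mod_cast h2
    have h3' : ((6 * L - 3 * j : ℕ) : ℚ) + 1 ≤ 2 * (((6 * L - 3 * j) / 2 + 1 : ℕ) : ℚ) := by
      exact_mod_cast h3
    linarith
  refine le_trans (le_of_eq ?_) (Finset.sum_le_sum h1)
  rw [gauss_sum]
  push_cast
  ring

lemma card_SS (A1 A2 N M : ℕ) (h1 : 0 < A1) (h2 : 0 < A2) :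
    ((SS A1 A2 (N * (6 * (A1 * A2 * M))) (6 * N * A1 * M)).card : ℚ)
    ≤ (6 * N * A1 * M + 1) * (3 * N * A2 * M + 1) := by
  rw [SS, Finset.card_sigma]
  push_cast
  have hA1 : (0 : ℚ) < A1 := by exact_mod_cast h1
  have h3 : ∀ c ∈ Finset.range (6 * N * A1 * M + 1),
      ((Finset.range ((N * (6 * (A1 * A2 * M)) - c * A2) / A1 + 1)).card : ℚ)
      ≤ (6 * N * A2 * M + 1) - (A2 : ℚ) / A1 * (c : ℚ) := by
    intro c hc
    rw [Finset.mem_range] at hc
    rw [Finset.card_range]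
    have hc' : c ≤ 6 * N * A1 * M := by omega
    have h4 : c * A2 ≤ N * (6 * (A1 * A2 * M)) := by
      calc c * A2 ≤ 6 * N * A1 * M * A2 := Nat.mul_le_mul_right _ hc'
        _ = N * (6 * (A1 * A2 * M)) := by ring
    have h5 : (((N * (6 * (A1 * A2 * M)) - c * A2) / A1 : ℕ) : ℚ)
        ≤ ((N * (6 * (A1 * A2 * M)) - c * A2 : ℕ) : ℚ) / A1 := Nat.cast_div_le
    rw [Nat.cast_sub h4] at h5
    push_cast at h5 ⊢
    have h6 : ((N : ℚ) * (6 * (A1 * A2 * M)) - c * A2) / A1
        = 6 * N * A2 * M - (A2 : ℚ) / A1 * (c : ℚ) := by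
      field_simp
    rw [h6] at h5
    linarith
  refine le_trans (Finset.sum_le_sum h3) (le_of_eq ?_)
  rw [gauss_sum]
  push_cast
  field_simp
  ring

lemma exists_good {A1 A2 N : ℕ} (h1 : 0 < A1) (h2 : 0 < A2) (hN : 0 < N)
    (h : 6 * N ^ 2 < A1 * A2) : ∃ p, Good A1 A2 N p := by
  classical
  set M := 10 * N with hM
  set L := A1 * A2 * M with hL
  set n := 6 * L with hn
  set I := II L with hI
  set S := SS A1 A2 (N * n) (6 * N * A1 * M) with hS
  have hcard : S.card < I.card := by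
    have e1 := card_II L
    have e2 := card_SS A1 A2 N M h1 h2
    have e3 : (6 * N * A1 * M + 1 : ℚ) * (3 * N * A2 * M + 1) < (2 * (L : ℚ) + 1) * (3 * L + 1) / 2 := by
      have hq : (6 * (N : ℚ) ^ 2 + 1) ≤ A1 * A2 := by exact_mod_cast h
      have hA1 : (1 : ℚ) ≤ A1 := by exact_mod_cast h1
      have hA2 : (1 : ℚ) ≤ A2 := by exact_mod_cast h2
      have hNq : (1 : ℚ) ≤ N := by exact_mod_cast hN
      have hMq : (M : ℚ) = 10 * N := by rw [hM]; push_cast; ring
      have hLq : (L : ℚ) = A1 * A2 * M := by rw [hL]; push_cast; ring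
      rw [hLq, hMq]
      have hB : (0 : ℚ) < A1 * A2 := by positivity
      have k1 : (A1 : ℚ) ≤ A1 * A2 := by nlinarith
      have k2 : (A2 : ℚ) ≤ A1 * A2 := by nlinarith
      set B : ℚ := A1 * A2 with hBdef
      have k3 : (N : ℚ) ^ 2 * A1 ≤ N ^ 2 * B := mul_le_mul_of_nonneg_left k1 (by positivity)
      have k4 : (N : ℚ) ^ 2 * A2 ≤ N ^ 2 * B := mul_le_mul_of_nonneg_left k2 (by positivity)
      have k5 : (N : ℚ) ^ 2 * B * (6 * N ^ 2 + 1) ≤ N ^ 2 * B * B :=
        mul_le_mul_of_nonneg_left hq (by positivity)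
      have k6 : (6 * N * A1 * (10 * N) + 1 : ℚ) * (3 * N * A2 * (10 * N) + 1)
          = 1800 * N ^ 4 * B + 60 * (N ^ 2 * A1) + 30 * (N ^ 2 * A2) + 1 := by
        rw [hBdef]; ring
      have k7 : (2 * (B * (10 * N)) + 1) * (3 * (B * (10 * N)) + 1) / 2
          = 300 * (N ^ 2 * B * B) + 25 * (B * N) + 1 / 2 := by ring
      rw [k6, k7]
      have k8 : (0 : ℚ) < N ^ 2 * B := by positivity
      have k9 : (1 : ℚ) ≤ N * B := by nlinarith
      nlinarith
    have e4 : (S.card : ℚ) < I.card := lt_of_le_of_lt (by rw [hS, hn, hL]; exact e2)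
      (lt_of_lt_of_le e3 e1)
    exact_mod_cast e4
  -- linear algebra
  let Mx : Matrix S I ℚ := fun s x =>
    ((-1) ^ s.1.2 * ((n - (2 * x.1.2 + 3 * x.1.1)).choose s.1.2 : ℚ)) * (x.1.1.choose s.1.1 : ℚ)
  have hker : LinearMap.ker (Matrix.mulVecLin Mx) ≠ ⊥ := by
    apply LinearMap.ker_ne_bot_of_finrank_lt
    rw [Module.finrank_fintype_fun_eq_card, Module.finrank_fintype_fun_eq_card,
      Fintype.card_coe, Fintype.card_coe]
    exact hcard
  obtain ⟨a, ha, ha0⟩ := (Submodule.ne_bot_iff _).mp hker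
  rw [LinearMap.mem_ker, Matrix.mulVecLin_apply] at ha
  -- the polynomial
  let a' : (Σ _ : ℕ, ℕ) → ℚ := fun x => if hx : x ∈ I then a ⟨x, hx⟩ else 0
  let p : R2 := ∑ x ∈ I, monomial x.1 (monomial x.2 (a' x))
  have hcf : ∀ i j, cf p i j = a' ⟨j, i⟩ := by
    intro i j
    have e1 : cf p i j = ∑ x ∈ I, if x.1 = j ∧ x.2 = i then a' x else 0 := by
      simp only [p, cf, finsetSum_coeff]
      apply Finset.sum_congr rfl
      intro x _
      exact cf_mono x.2 x.1 i j _
    rw [e1]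
    by_cases hx : (⟨j, i⟩ : Σ _ : ℕ, ℕ) ∈ I
    · rw [Finset.sum_eq_single (⟨j, i⟩ : Σ _ : ℕ, ℕ)]
      · simp
      · intro y _ hy
        rw [if_neg]
        rintro ⟨e2, e3⟩
        apply hy
        obtain ⟨y1, y2⟩ := y
        simp only at e2 e3
        rw [e2, e3]
      · intro hx'; exact absurd hx hx'
    · have : a' ⟨j, i⟩ = 0 := dif_neg hx
      rw [this]
      apply Finset.sum_eq_zero
      intro y hy
      rw [if_neg]
      rintro ⟨e2, e3⟩
      apply hx
      obtain ⟨y1, y2⟩ := y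
      simp only at e2 e3
      rw [← e2, ← e3]; exact hy
  have hmemI : ∀ i j, (⟨j, i⟩ : Σ _ : ℕ, ℕ) ∈ I ↔ 2 * i + 3 * j ≤ n := by
    intro i j
    simp only [hI, II, Finset.mem_sigma, Finset.mem_range, hn]
    omega
  have hD : D p ≤ n := by
    apply D_le
    intro i j hij
    rw [hcf] at hij
    by_contra hcon
    apply hij
    exact dif_neg (fun h => hcon ((hmemI i j).mp h))
  have hγ : ∀ b c : ℕ, b * A1 + c * A2 ≤ N * n → γ p n b c = 0 := by
    intro b c hbc
    have hs : (⟨c, b⟩ : Σ _ : ℕ, ℕ) ∈ S := by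
      rw [hS, SS, Finset.mem_sigma, Finset.mem_range, Finset.mem_range]
      constructor
      · have e1 : c * A2 ≤ 6 * N * A1 * M * A2 := by
          calc c * A2 ≤ N * n := by omega
            _ = 6 * N * A1 * M * A2 := by rw [hn, hL]; ring
        have := Nat.le_of_mul_le_mul_right e1 h2
        exact Nat.lt_succ_of_le this
      · have : b ≤ (N * n - c * A2) / A1 := by
          rw [Nat.le_div_iff_mul_le h1]
          omega
        exact Nat.lt_succ_of_le this
    have e1 := congrFun ha ⟨⟨c, b⟩, hs⟩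
    rw [Matrix.mulVec, dotProduct] at e1
    simp only [Mx, Pi.zero_apply] at e1
    rw [γ]
    have e2 : ∀ j i, cf p i j * ((-1) ^ b * ((n - (2 * i + 3 * j)).choose b : ℚ))
        * (j.choose c : ℚ) = (fun x : (Σ _ : ℕ, ℕ) => a' x * ((-1) ^ b *
          ((n - (2 * x.2 + 3 * x.1)).choose b : ℚ)) * (x.1.choose c : ℚ)) ⟨j, i⟩ := by
      intro j i
      rw [hcf]
    rw [Finset.sum_congr rfl fun j _ => Finset.sum_congr rfl fun i _ => e2 j i]
    rw [← Finset.sum_sigma (Finset.range (n + 1)) (fun _ => Finset.range (n + 1))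
      (fun x : (Σ _ : ℕ, ℕ) => a' x * ((-1) ^ b *
          ((n - (2 * x.2 + 3 * x.1)).choose b : ℚ)) * (x.1.choose c : ℚ))]
    have e3 : I ⊆ (Finset.range (n + 1)).sigma (fun _ => Finset.range (n + 1)) := by
      rintro ⟨j, i⟩ hx
      have := (hmemI i j).mp hx
      rw [Finset.mem_sigma, Finset.mem_range, Finset.mem_range]
      simp only
      omega
    rw [← Finset.sum_subset e3]
    · rw [← Finset.sum_coe_sort]
      rw [← e1]
      apply Finset.sum_congr rfl
      intro x _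
      have : a' x.1 = a x := dif_pos x.2
      rw [this]
      ring
    · intro x _ hx
      have : a' x = 0 := dif_neg hx
      rw [this]; simp
  refine ⟨p, ?_, ?_⟩
  · intro hp0
    apply ha0
    ext x
    have e1 := hcf x.1.2 x.1.1
    rw [hp0] at e1
    have e2 : cf (0 : R2) x.1.2 x.1.1 = 0 := by simp [cf]
    rw [e2] at e1
    have e3 : a' x.1 = a x := dif_pos x.2
    rw [← e3]
    exact e1.symm
  · refine lt_of_le_of_lt ?_ (v_of_γ_zero hD hγ)
    exact_mod_cast Nat.mul_le_mul_left N hD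

end Pool.Agent.H453R2.Thue
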