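import Pool.Agent.H453R2.Thue.Region

set_option autoImplicit false

namespace Pool.Agent.H453R2.Thue

/-- choice of rational parameters -/
lemma params {δ θ : ℝ} (hδ : 0 < δ) (hδ1 : δ ≤ 1 / 10) (hθ : 0 < θ)
    (h : θ < 6 * δ / (1 + 2 * δ) - δ) : ∃ A1 A2 N : ℕ, 0 < N ∧ 0 < A1 ∧ 0 < A2 ∧
      5 * A1 ≤ 6 * N ∧ A2 < 6 * N ∧ 6 * N ^ 2 < A1 * A2 ∧ (A1 : ℝ) / N - 1 ≤ 2 * δ ∧
      (A2 : ℝ) / N + ((A1 : ℝ) / N - 1) ≤ 6 - 2 * θ := by
  have h2δ : 0 < 1 + 2 * δ := by linarith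
  have e1 : 6 * δ / (1 + 2 * δ) = 3 - 3 / (1 + 2 * δ) := by field_simp; ring
  rw [e1] at h
  have hmain : 6 / (1 + 2 * δ) + 2 * δ < 6 - 2 * θ := by
    have e2 : 6 / (1 + 2 * δ) = 2 * (3 / (1 + 2 * δ)) := by ring
    rw [e2]; linarith
  have hcont : ContinuousAt (fun b : ℝ => 6 / (1 + b) + b) (2 * δ) := by
    apply ContinuousAt.add _ continuousAt_id
    apply ContinuousAt.div continuousAt_const (continuousAt_const.add continuousAt_id)
    exact h2δ.ne'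
  have hev := hcont.eventually (gt_mem_nhds hmain)
  rw [Metric.eventually_nhds_iff] at hev
  obtain ⟨r, hr, hball⟩ := hev
  -- rational b
  obtain ⟨b, hb1, hb2⟩ := exists_rat_btwn (show max 0 (2 * δ - r) < 2 * δ from
    max_lt (by linarith) (by linarith))
  have hb0 : (0 : ℝ) < b := lt_of_le_of_lt (le_max_left _ _) hb1
  have hbr : 2 * δ - r < b := lt_of_le_of_lt (le_max_right _ _) hb1
  have hb3 : 6 / (1 + (b : ℝ)) + b < 6 - 2 * θ := by
    apply hball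
    rw [Real.dist_eq, abs_lt]
    constructor <;> linarith
  obtain ⟨a, ha1, ha2⟩ := exists_rat_btwn (show 6 / (1 + (b : ℝ)) < 6 - 2 * θ - b by linarith)
  have hb1' : 0 < 1 + (b : ℝ) := by linarith
  have ha0 : (0 : ℝ) < a := lt_trans (by positivity) ha1
  have hbQ : (0 : ℚ) < b := by exact_mod_cast hb0
  have haQ : (0 : ℚ) < a := by exact_mod_cast ha0
  -- common denominator
  set N : ℕ := a.den * b.den with hN
  have hNpos : 0 < N := Nat.mul_pos (Rat.den_pos _) (Rat.den_pos _)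
  obtain ⟨nb, hnb⟩ : ∃ nb : ℕ, (nb : ℤ) = b.num := ⟨b.num.toNat, Int.toNat_of_nonneg (by
    exact (Rat.num_pos.mpr hbQ).le)⟩
  obtain ⟨na, hna⟩ : ∃ na : ℕ, (na : ℤ) = a.num := ⟨a.num.toNat, Int.toNat_of_nonneg (by
    exact (Rat.num_pos.mpr haQ).le)⟩
  have hNr : (0 : ℝ) < N := by exact_mod_cast hNpos
  have hbR : (b : ℝ) = nb / b.den := by
    have : (b : ℝ) = (b.num : ℝ) / b.den := by
      exact_mod_cast congrArg (fun q : ℚ => (q : ℝ)) (Rat.num_div_den b).symm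
    rw [this, ← hnb]; simp
  have haR : (a : ℝ) = na / a.den := by
    have : (a : ℝ) = (a.num : ℝ) / a.den := by
      exact_mod_cast congrArg (fun q : ℚ => (q : ℝ)) (Rat.num_div_den a).symm
    rw [this, ← hna]; simp
  have hbd : (0 : ℝ) < b.den := by exact_mod_cast Rat.den_pos b
  have had : (0 : ℝ) < a.den := by exact_mod_cast Rat.den_pos a
  have hA1 : (((a.den * b.den + a.den * nb : ℕ) : ℝ)) / N = 1 + b := by
    rw [hN, hbR]; push_cast; field_simp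
  have hA2 : (((na * b.den : ℕ) : ℝ)) / N = a := by
    rw [hN, haR]; push_cast; field_simp
  have hna0 : 0 < na := by
    have : (0 : ℤ) < na := by rw [hna]; exact Rat.num_pos.mpr haQ
    exact_mod_cast this
  refine ⟨a.den * b.den + a.den * nb, na * b.den, N, hNpos, ?_, Nat.mul_pos hna0 (Rat.den_pos _),
    ?_, ?_, ?_, ?_, ?_⟩
  · have := Nat.mul_pos (Rat.den_pos a) (Rat.den_pos b)
    omega
  · rw [div_eq_iff hNr.ne'] at hA1
    have : (5 * ((a.den * b.den + a.den * nb : ℕ) : ℝ)) ≤ 6 * N := by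
      rw [hA1]; nlinarith
    exact_mod_cast this
  · rw [div_eq_iff hNr.ne'] at hA2
    have : ((na * b.den : ℕ) : ℝ) < 6 * N := by
      rw [hA2]; nlinarith
    exact_mod_cast this
  · rw [div_eq_iff hNr.ne'] at hA1 hA2
    have : (6 * (N : ℝ) ^ 2) < ((a.den * b.den + a.den * nb : ℕ) : ℝ) * ((na * b.den : ℕ) : ℝ) := by
      rw [hA1, hA2]
      rw [div_lt_iff₀ hb1'] at ha1
      have : 0 < (N : ℝ) ^ 2 := by positivity
      nlinarith
    exact_mod_cast this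
  · rw [hA1]; linarith
  · rw [hA1, hA2]; linarith

theorem near_square {δ θ : ℝ} (hδ : 0 < δ) (hδ1 : δ ≤ 1 / 10) (hθ : 0 < θ)
    (h : θ < 6 * δ / (1 + 2 * δ) - δ) : ∃ c : ℝ, 0 < c ∧ ∀ X Y U : ℤ, Y ^ 2 ≠ X ^ 3 → X ≠ U ^ 2 →
      |(X : ℝ) - U ^ 2| ≤ |(X : ℝ)| ^ (1 / 2 - δ) → c * |(X : ℝ)| ^ θ ≤ |(Y : ℝ) ^ 2 - X ^ 3| := by
  obtain ⟨A1, A2, N, hN, h1, h2, hA1, hA2, hprod, hb, he⟩ := params hδ hδ1 hθ h
  obtain ⟨m0, hm0, hreg⟩ := region hN h1 h2 hA1 hA2 hprod (6 - 2 * θ) he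
  have hM : (0 : ℝ) < m0 ^ 2 := by positivity
  have hM1 : (1 : ℝ) ≤ m0 ^ 2 := by nlinarith
  refine ⟨((m0 ^ 2) ^ θ)⁻¹, by positivity, ?_⟩
  intro X Y U hXY hXU hclose
  have hMθ : 1 ≤ (m0 ^ 2) ^ θ := Real.one_le_rpow hM1 hθ.le
  have hk1 : (1 : ℝ) ≤ |(Y : ℝ) ^ 2 - X ^ 3| := by
    have e1 : (1 : ℤ) ≤ |Y ^ 2 - X ^ 3| := Int.one_le_abs (sub_ne_zero.mpr hXY)
    exact_mod_cast e1
  rcases le_or_gt |(X : ℝ)| (m0 ^ 2) with hsmall | hbig
  · have e1 : |(X : ℝ)| ^ θ ≤ (m0 ^ 2) ^ θ := Real.rpow_le_rpow (abs_nonneg _) hsmall hθ.le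
    have e2 : ((m0 ^ 2) ^ θ)⁻¹ * |(X : ℝ)| ^ θ ≤ 1 := by
      rw [inv_mul_le_iff₀ (by positivity)]
      linarith
    linarith
  · by_contra hcon
    push Not at hcon
    have hX1 : 1 < |(X : ℝ)| := lt_of_le_of_lt hM1 hbig
    -- X is positive
    have hXpos : (0 : ℝ) < X := by
      by_contra hneg
      push Not at hneg
      rw [abs_of_nonpos hneg] at hX1 hclose
      have e1 : |(X : ℝ) - U ^ 2| = -X + U ^ 2 := by
        rw [abs_of_nonpos (by nlinarith [sq_nonneg (U : ℝ)])]; ring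
      have e2 : (-(X : ℝ)) ^ (1 / 2 - δ) < (-(X : ℝ)) ^ (1 : ℝ) :=
        Real.rpow_lt_rpow_of_exponent_lt hX1 (by linarith)
      rw [Real.rpow_one] at e2
      rw [e1] at hclose
      have := sq_nonneg (U : ℝ)
      linarith
    rw [abs_of_pos hXpos] at hbig hclose hcon hX1
    set m : ℝ := √(X : ℝ) with hm
    have hmsq : m ^ 2 = X := Real.sq_sqrt hXpos.le
    have hmpos : 0 < m := Real.sqrt_pos.mpr hXpos
    have hmm0 : m0 ≤ m := by
      rw [hm]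
      apply Real.le_sqrt_of_sq_le
      exact hbig.le
    have hm1 : 1 ≤ m := le_trans hm0 hmm0
    have hrpow : ∀ e : ℝ, (X : ℝ) ^ e = m ^ (2 * e) := by
      intro e
      rw [← hmsq, ← Real.rpow_natCast m 2, ← Real.rpow_mul hmpos.le]
      push_cast; rfl
    have hUabs : (((|U| : ℤ) : ℝ)) = |(U : ℝ)| := by push_cast; rfl
    have hYabs : (((|Y| : ℤ) : ℝ)) = |(Y : ℝ)| := by push_cast; rfl
    have hu : |m - ((|U| : ℤ) : ℝ)| ≤ m ^ (1 - (A1 : ℝ) / N) := by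
      rw [hUabs]
      have e1 : |(X : ℝ) - U ^ 2| = abs (m - |(U : ℝ)|) * (m + |(U : ℝ)|) := by
        rw [← abs_of_pos (show 0 < m + |(U : ℝ)| by positivity), ← abs_mul]
        congr 1
        rw [← hmsq, ← sq_abs (U : ℝ)]
        ring
      have e2 : abs (m - |(U : ℝ)|) * m ≤ m ^ (2 * (1 / 2 - δ)) := by
        rw [← hrpow]
        refine le_trans ?_ hclose
        rw [e1]
        apply mul_le_mul_of_nonneg_left _ (abs_nonneg _)
        linarith [abs_nonneg (U : ℝ)]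
      have e3 : m ^ (2 * (1 / 2 - δ)) = m ^ (-(2 * δ)) * m := by
        conv_rhs => rw [← Real.rpow_add_one hmpos.ne']
        congr 1; ring
      rw [e3] at e2
      have e4 : abs (m - |(U : ℝ)|) ≤ m ^ (-(2 * δ)) := le_of_mul_le_mul_right e2 hmpos
      refine le_trans e4 (Real.rpow_le_rpow_of_exponent_le hm1 (by linarith))
    have hy : |((|Y| : ℤ) : ℝ) - m ^ 3| ≤ m ^ (3 - (6 - 2 * θ)) := by
      rw [hYabs]
      have e1 : |(Y : ℝ) ^ 2 - X ^ 3| = abs (|(Y : ℝ)| - m ^ 3) * (|(Y : ℝ)| + m ^ 3) := by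
        rw [← abs_of_pos (show 0 < |(Y : ℝ)| + m ^ 3 by positivity), ← abs_mul]
        congr 1
        rw [← hmsq, ← sq_abs (Y : ℝ)]
        ring
      have e2 : |(Y : ℝ) ^ 2 - X ^ 3| ≤ m ^ (2 * θ) := by
        rw [← hrpow]
        refine le_trans hcon.le ?_
        have e3 : ((m0 ^ 2) ^ θ)⁻¹ ≤ 1 := inv_le_one_of_one_le₀ hMθ
        have e4 : 0 ≤ (X : ℝ) ^ θ := Real.rpow_nonneg hXpos.le _
        nlinarith
      have e5 : abs (|(Y : ℝ)| - m ^ 3) * m ^ 3 ≤ m ^ (2 * θ) := by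
        refine le_trans ?_ e2
        rw [e1]
        apply mul_le_mul_of_nonneg_left _ (abs_nonneg _)
        linarith [abs_nonneg (Y : ℝ)]
      have e6 : m ^ (2 * θ) = m ^ (3 - (6 - 2 * θ)) * m ^ 3 := by
        rw [← Real.rpow_natCast m 3, ← Real.rpow_add hmpos]
        congr 1; push_cast; ring
      rw [e6] at e5
      exact le_of_mul_le_mul_right e5 (pow_pos hmpos 3)
    have := hreg X |Y| |U| m hmm0 hmsq hu hy
    rw [sq_abs] at this
    exact hXU this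

end Pool.Agent.H453R2.Thue
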