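import Pool.Agent.H453R2.Thue.Ana

set_option autoImplicit false

namespace Pool.Agent.H453R2.Thue

open Polynomial

lemma int_small {L : ℕ} {E K m ε : ℝ} (hL : 0 < L) (hint : ∃ z : ℤ, (L : ℝ) * E = z)
    (hE : |E| ≤ K * m ^ (-ε)) (hK : L * K * m ^ (-ε) < 1) : E = 0 := by
  obtain ⟨z, hz⟩ := hint
  have hL' : (0 : ℝ) < L := by exact_mod_cast hL
  have h1 : |(z : ℝ)| < 1 := by
    rw [← hz, abs_mul, abs_of_pos hL']
    calc (L : ℝ) * |E| ≤ L * (K * m ^ (-ε)) := mul_le_mul_of_nonneg_left hE hL'.le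
      _ = L * K * m ^ (-ε) := by ring
      _ < 1 := hK
  have h2 : |z| < 1 := by exact_mod_cast h1
  have h3 : z = 0 := Int.abs_lt_one_iff.mp h2
  rw [h3] at hz
  have h4 : (L : ℝ) * E = 0 := by rw [hz]; simp
  exact (mul_eq_zero.mp h4).resolve_left hL'.ne'

theorem region {A1 A2 N : ℕ} (hN : 0 < N) (h1 : 0 < A1) (h2 : 0 < A2) (hA1 : 5 * A1 ≤ 6 * N)
    (hA2 : A2 < 6 * N) (h : 6 * N ^ 2 < A1 * A2) (e2 : ℝ)
    (he : (A2 : ℝ) / N + ((A1 : ℝ) / N - 1) ≤ e2) :
    ∃ m0 : ℝ, 1 ≤ m0 ∧ ∀ (x y u : ℤ) (m : ℝ), m0 ≤ m → m ^ 2 = x →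
      |m - u| ≤ m ^ (1 - (A1 : ℝ) / N) → |y - m ^ 3| ≤ m ^ (3 - e2) → x = u ^ 2 := by
  classical
  obtain ⟨p, hp, hirr⟩ := exists_irreducible (exists_good h1 h2 hN h)
  have h7 := seven_le hp hirr hA2 hA1
  obtain ⟨A, B, R, hR, hAB⟩ := elim hirr (not_dvd_qd hp hirr hA2)
  have hexb := exists_γ_ne hp hirr hA2
  set n := D p with hn
  have hγ : ∀ b c, γ p n b c ≠ 0 → N * n + 1 ≤ b * A1 + c * A2 := by
    intro b c hbc
    by_contra hcon
    exact hbc (γ_zero_of_v le_rfl hp.2 b c (by rw [← hn]; omega))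
  obtain ⟨b0, hb0, hb0min⟩ : ∃ b0, γ p n b0 0 ≠ 0 ∧ ∀ b < b0, γ p n b 0 = 0 :=
    ⟨Nat.find hexb, Nat.find_spec hexb, fun b hb => by
      have := Nat.find_min hexb hb
      push Not at this
      exact this⟩
  clear hexb
  obtain ⟨L, hL, hLint⟩ := clear p n
  obtain ⟨δ0, hδ0, hgap⟩ := root_gap R hR
  -- real parameters
  have hN' : (0 : ℝ) < N := by exact_mod_cast hN
  set ε : ℝ := 1 / N with hε
  clear_value ε
  have hεpos : 0 < ε := by rw [hε]; positivity
  set a1 : ℝ := (A1 : ℝ) / N with ha1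
  clear_value a1
  set a2 : ℝ := (A2 : ℝ) / N with ha2
  clear_value a2
  have ha1le : a1 ≤ 6 / 5 := by
    rw [ha1, div_le_iff₀ hN']
    have : (5 * A1 : ℝ) ≤ 6 * N := by exact_mod_cast hA1
    linarith
  have ha1gt : 1 < a1 := by
    rw [ha1, lt_div_iff₀ hN', one_mul]
    have h3 : N < A1 := by
      by_contra hcon
      push Not at hcon
      have : A1 * A2 ≤ N * (6 * N) := Nat.mul_le_mul hcon hA2.le
      nlinarith
    exact_mod_cast h3
  have ha2lt : a2 < 6 := by
    rw [ha2, div_lt_iff₀ hN']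
    exact_mod_cast hA2
  have ha2pos : 0 < a2 := by rw [ha2]; positivity
  have hγR : ∀ b c, γ p n b c ≠ 0 → (n : ℝ) + ε ≤ b * a1 + c * a2 := by
    intro b c hbc
    have h3 : ((N * n + 1 : ℕ) : ℝ) ≤ ((b * A1 + c * A2 : ℕ) : ℝ) := by
      exact_mod_cast hγ b c hbc
    push_cast at h3
    have h4 : (n : ℝ) + ε = (N * n + 1) / N := by rw [hε]; field_simp
    have h5 : b * a1 + c * a2 = ((b : ℝ) * A1 + c * A2) / N := by rw [ha1, ha2]; field_simp
    rw [h4, h5]
    exact div_le_div_of_nonneg_right h3 hN'.le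
  have hnR : (7 : ℝ) ≤ n := by exact_mod_cast h7
  have hb0R := hγR b0 0 hb0
  have hb03 : (5 : ℝ) ≤ b0 := by
    simp only [Nat.cast_zero, zero_mul, add_zero] at hb0R
    have hb0nn : (0 : ℝ) ≤ b0 := Nat.cast_nonneg _
    have := mul_le_mul_of_nonneg_left ha1le hb0nn
    linarith
  have hb01 : 1 ≤ b0 := by
    have : (5 : ℕ) ≤ b0 := by exact_mod_cast hb03
    omega
  set g : ℝ := |(γ p n b0 0 : ℝ)| with hg
  clear_value g
  have hgpos : 0 < g := by rw [hg]; exact abs_pos.mpr (by exact_mod_cast hb0)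
  set C1 : ℝ := ∑ b ∈ Finset.range (n + 1), ∑ c ∈ Finset.range (n + 1),
    (b : ℝ) * |(γ p n b c : ℝ)| with hC1
  clear_value C1
  set C2 : ℝ := ∑ b ∈ Finset.range (n + 1), ∑ c ∈ Finset.range (n + 1),
    |(γ p n b c : ℝ)| with hC2
  clear_value C2
  have hC1nn : 0 ≤ C1 := by
    rw [hC1]
    exact Finset.sum_nonneg fun b _ => Finset.sum_nonneg fun c _ => by positivity
  have hC2nn : 0 ≤ C2 := by
    rw [hC2]
    exact Finset.sum_nonneg fun b _ => Finset.sum_nonneg fun c _ => by positivity
  set C3 : ℝ := 1 + 2 * C2 / g with hC3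
  clear_value C3
  have hC3pos : 0 < C3 := by rw [hC3]; positivity
  set Kc : ℝ := L * C2 + L * (C1 * (1 + C3)) with hKc
  clear_value Kc
  have hlim : Filter.Tendsto (fun m : ℝ => Kc * m ^ (-ε)) Filter.atTop (nhds 0) := by
    have := (tendsto_rpow_neg_atTop hεpos).const_mul Kc
    simpa using this
  have hev : ∀ᶠ m : ℝ in Filter.atTop, Kc * m ^ (-ε) < 1 := by
    have := hlim.eventually (gt_mem_nhds (show (0 : ℝ) < 1 by norm_num))
    exact this
  obtain ⟨m1, hm1⟩ := Filter.eventually_atTop.mp hev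
  refine ⟨max (max m1 2) (max (2 * C2 / g) (13 / δ0)), ?_, ?_⟩
  · refine le_trans ?_ (le_max_left _ _)
    exact le_trans (by norm_num) (le_max_right _ _)
  intro x y u m hm hx hu hy
  by_contra hxu
  have hmm1 : m1 ≤ m := le_trans (le_trans (le_max_left _ _) (le_max_left _ _)) hm
  have hm2 : 2 ≤ m := le_trans (le_trans (le_max_right _ _) (le_max_left _ _)) hm
  have hmg : 2 * C2 / g ≤ m := le_trans (le_trans (le_max_left _ _) (le_max_right _ _)) hm
  have hmδ : 13 / δ0 ≤ m := le_trans (le_trans (le_max_right _ _) (le_max_right _ _)) hm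
  have hm0 : 0 < m := by linarith
  have hm1' : 1 ≤ m := by linarith
  have hK := hm1 m hmm1
  have hmε : 0 < m ^ (-ε) := Real.rpow_pos_of_pos hm0 _
  have hL' : (0 : ℝ) < L := by exact_mod_cast hL
  -- coordinates
  set z : ℝ := u / m with hz
  clear_value z
  set s : ℝ := y / m ^ 3 with hs
  clear_value s
  have huz : (u : ℝ) = m * z := by rw [hz]; field_simp
  have hys : (y : ℝ) = m ^ 3 * s := by rw [hs]; field_simp
  set H : ℝ := |1 - z| with hH
  clear_value H
  set S : ℝ := |s - 1| with hS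
  clear_value S
  have hH0 : 0 ≤ H := by rw [hH]; exact abs_nonneg _
  have hS0 : 0 ≤ S := by rw [hS]; exact abs_nonneg _
  have hHle : H ≤ m ^ (-a1) := by
    have e1 : H = |m - u| / m := by
      rw [hH, huz, show m - m * z = m * (1 - z) by ring, abs_mul, abs_of_pos hm0]
      field_simp
    rw [e1, div_le_iff₀ hm0]
    have e2 : m ^ (-a1) * m = m ^ (1 - a1) := by
      conv_lhs => rw [← Real.rpow_one m]
      rw [Real.rpow_one, ← Real.rpow_add_one hm0.ne']
      congr 1; ring
    rw [e2]; exact hu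
  have hSle : S ≤ m ^ (-e2) := by
    have e1 : S = |y - m ^ 3| / m ^ 3 := by
      rw [hS, hys, show m ^ 3 * s - m ^ 3 = m ^ 3 * (s - 1) by ring, abs_mul,
        abs_of_pos (pow_pos hm0 3)]
      field_simp
    rw [e1, div_le_iff₀ (pow_pos hm0 3)]
    have e2' : m ^ (-e2) * m ^ 3 = m ^ (3 - e2) := by
      rw [← Real.rpow_natCast m 3, ← Real.rpow_add hm0]
      congr 1; push_cast; ring
    rw [e2']; exact hy
  have hHm : H ≤ 1 / m := by
    refine le_trans hHle ?_
    have : m ^ (-a1) ≤ m ^ (-1 : ℝ) := Real.rpow_le_rpow_of_exponent_le hm1' (by linarith)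
    rw [Real.rpow_neg_one] at this
    rw [one_div]; exact this
  have hH1 : H ≤ 1 := le_trans hHm (by rw [div_le_one hm0]; exact hm1')
  have he2 : a2 ≤ e2 := by linarith
  -- P = 0
  have hterm0 : ∀ b c, γ p n b c ≠ 0 → m ^ n * (H ^ b * S ^ c) ≤ m ^ (-ε) := by
    intro b c hbc
    have e1 := pow_bound hm1' hH0 hS0 hHle hSle b c
    have e3 := hγR b c hbc
    have hcn : (0 : ℝ) ≤ c := Nat.cast_nonneg _
    have e4 : (c : ℝ) * a2 ≤ c * e2 := mul_le_mul_of_nonneg_left he2 hcn
    calc m ^ n * (H ^ b * S ^ c) ≤ m ^ n * m ^ (-(b * a1 + c * e2)) :=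
          mul_le_mul_of_nonneg_left e1 (by positivity)
      _ = m ^ ((n : ℝ) + -(b * a1 + c * e2)) := by
          rw [Real.rpow_add hm0, Real.rpow_natCast]
      _ ≤ m ^ (-ε) := Real.rpow_le_rpow_of_exponent_le hm1' (by linarith)
  have hev1 : ev p n x y u = m ^ n * ex2 ℝ p n z s := by
    rw [← hx, hys, huz]; exact ev_eq p n le_rfl m z s
  have hev2 : ev' p n x y u = m ^ (n - 1) * ex2' ℝ p n z s := by
    rw [← hx, hys, huz]; exact ev'_eq p n le_rfl m z s
  have hP : ev p n x y u = 0 := by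
    apply int_small (K := C2) (m := m) (ε := ε) hL (ev_int hLint x y u)
    · rw [hev1, ex2_eq, hC2, Finset.mul_sum, Finset.sum_mul]
      refine le_trans (Finset.abs_sum_le_sum_abs _ _) (Finset.sum_le_sum fun b _ => ?_)
      rw [Finset.mul_sum, Finset.sum_mul]
      refine le_trans (Finset.abs_sum_le_sum_abs _ _) (Finset.sum_le_sum fun c _ => ?_)
      by_cases h0 : γ p n b c = 0
      · rw [h0]; simp
      · rw [abs_mul, abs_mul, abs_mul, abs_pow, abs_pow, abs_pow, abs_of_pos hm0]
        have := mul_le_mul_of_nonneg_left (hterm0 b c h0) (abs_nonneg (γ p n b c : ℝ))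
        calc m ^ n * (|(γ p n b c : ℝ)| * |1 - z| ^ b * |s - 1| ^ c)
            = |(γ p n b c : ℝ)| * (m ^ n * (H ^ b * S ^ c)) := by rw [hH, hS]; ring
          _ ≤ _ := this
    · have : L * C2 * m ^ (-ε) ≤ Kc * m ^ (-ε) := by
        apply mul_le_mul_of_nonneg_right _ hmε.le
        rw [hKc]
        have : 0 ≤ L * (C1 * (1 + C3)) := by positivity
        linarith
      linarith
  have hE0 : ex2 ℝ p n z s = 0 := by
    rw [hev1] at hP
    exact (mul_eq_zero.mp hP).resolve_left (pow_ne_zero n hm0.ne')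
  -- the terms of the derivative
  have hn1 : (m ^ (n - 1) : ℝ) = m ^ ((n : ℝ) - 1) := by
    rw [← Real.rpow_natCast, Nat.cast_sub (by omega)]
    push_cast; rfl
  have hterm1 : ∀ b c, 1 ≤ b → 1 ≤ c → γ p n b c ≠ 0 →
      m ^ (n - 1) * (H ^ (b - 1) * S ^ c) ≤ m ^ (-ε) := by
    intro b c hb hc hbc
    have e1 := pow_bound hm1' hH0 hS0 hHle hSle (b - 1) c
    have e3 := hγR b c hbc
    have hcn : (1 : ℝ) ≤ c := by exact_mod_cast hc
    rw [Nat.cast_sub hb, Nat.cast_one] at e1
    rw [hn1]
    calc m ^ ((n : ℝ) - 1) * (H ^ (b - 1) * S ^ c)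
        ≤ m ^ ((n : ℝ) - 1) * m ^ (-(((b : ℝ) - 1) * a1 + c * e2)) :=
          mul_le_mul_of_nonneg_left e1 (by positivity)
      _ = m ^ (((n : ℝ) - 1) + -(((b : ℝ) - 1) * a1 + c * e2)) := by
          rw [Real.rpow_add hm0]
      _ ≤ m ^ (-ε) := by
          apply Real.rpow_le_rpow_of_exponent_le hm1'
          have e4 : (c : ℝ) * (a2 + (a1 - 1)) ≤ c * e2 := mul_le_mul_of_nonneg_left he (by linarith)
          have e5 : 1 * (a1 - 1) ≤ c * (a1 - 1) := mul_le_mul_of_nonneg_right hcn (by linarith)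
          linarith
  have hb0c : ((b0 - 1 : ℕ) : ℝ) = (b0 : ℝ) - 1 := by rw [Nat.cast_sub hb01]; simp
  set T : ℝ := m ^ (n - 1) * H ^ (b0 - 1) with hT
  clear_value T
  have hT0 : 0 ≤ T := by rw [hT]; positivity
  have hTle : T ≤ C3 * m ^ (-ε) := by
    set β : ℝ := a1 - 1 with hβ
    clear_value β
    have hβpos : 0 < β := by linarith
    rcases le_or_gt H (m ^ (-(1 + 3 / 2 * β))) with hcase | hcase
    · have e1 := pow_bound (S := 0) (e := 0) hm1' hH0 le_rfl hcase (by simp) (b0 - 1) 0
      rw [pow_zero, mul_one, hb0c] at e1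
      simp only [Nat.cast_zero, mul_zero, add_zero] at e1
      have e2' : T ≤ m ^ (-ε) := by
        rw [hT, hn1]
        calc m ^ ((n : ℝ) - 1) * H ^ (b0 - 1)
            ≤ m ^ ((n : ℝ) - 1) * m ^ (-(((b0 : ℝ) - 1) * (1 + 3 / 2 * β))) :=
              mul_le_mul_of_nonneg_left e1 (by positivity)
          _ = m ^ (((n : ℝ) - 1) + -(((b0 : ℝ) - 1) * (1 + 3 / 2 * β))) := by
              rw [Real.rpow_add hm0]
          _ ≤ m ^ (-ε) := by
              apply Real.rpow_le_rpow_of_exponent_le hm1'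
              simp only [Nat.cast_zero, zero_mul, add_zero] at hb0R
              have e5 : a1 = 1 + β := by rw [hβ]; ring
              rw [e5] at hb0R
              have e6 : 0 ≤ β * ((b0 : ℝ) - 3) := mul_nonneg hβpos.le (by linarith)
              linarith
      have e3 : m ^ (-ε) ≤ C3 * m ^ (-ε) := by
        have : 1 ≤ C3 := by
          rw [hC3]
          have : 0 ≤ 2 * C2 / g := by positivity
          linarith
        exact le_mul_of_one_le_left hmε.le this
      linarith
    · have hHpos : 0 < H := lt_trans (Real.rpow_pos_of_pos hm0 _) hcase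
      -- terms
      have hterm2 : ∀ b c, (b, c) ≠ (b0, 0) → γ p n b c ≠ 0 →
          m ^ (n - 1) * (H ^ b * S ^ c) / H ≤ m ^ (-ε) + H * T := by
        intro b c hne hbc
        rw [div_le_iff₀ hHpos]
        rcases Nat.eq_zero_or_pos c with hc | hc
        · rw [hc] at hne hbc ⊢
          have hb : b0 ≤ b := by
            by_contra hcon
            push Not at hcon
            exact hbc (hb0min b hcon)
          have hb' : b0 + 1 ≤ b := by
            rcases Nat.lt_or_ge b0 b with h3 | h3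
            · exact h3
            · exfalso; apply hne; rw [le_antisymm h3 hb]
          have e1 : H ^ b ≤ H ^ (b0 + 1) := pow_le_pow_of_le_one hH0 hH1 hb'
          have e2' : H ^ (b0 + 1) = H ^ (b0 - 1) * H * H := by
            rw [mul_assoc, ← sq, ← pow_add]; congr 1; omega
          calc m ^ (n - 1) * (H ^ b * S ^ 0) = m ^ (n - 1) * H ^ b := by rw [pow_zero, mul_one]
            _ ≤ m ^ (n - 1) * H ^ (b0 + 1) := mul_le_mul_of_nonneg_left e1 (by positivity)
            _ = H * T * H := by rw [e2', hT]; ring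
            _ ≤ (m ^ (-ε) + H * T) * H := by
              have e9 : 0 ≤ m ^ (-ε) * H := by positivity
              linarith
        · rcases Nat.eq_zero_or_pos b with hb | hb
          · rw [hb] at hbc ⊢
            rw [pow_zero, one_mul]
            have e1 := pow_bound hm1' hH0 hS0 hHle hSle 0 c
            rw [pow_zero, one_mul] at e1
            have e3 := hγR 0 c hbc
            simp only [Nat.cast_zero, zero_mul, zero_add] at e1 e3
            have hc2 : (2 : ℝ) ≤ c := by
              have : 2 ≤ c := by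
                by_contra hcon
                have hc1 : c = 1 := by omega
                rw [hc1] at e3
                simp only [Nat.cast_one, one_mul] at e3
                linarith
              exact_mod_cast this
            have e4 : (c : ℝ) * (a2 + β) ≤ c * e2 := mul_le_mul_of_nonneg_left he (by linarith)
            have e5 : m ^ (n - 1) * S ^ c ≤ m ^ (-ε) * m ^ (-(1 + 3 / 2 * β)) := by
              rw [hn1]
              calc m ^ ((n : ℝ) - 1) * S ^ c ≤ m ^ ((n : ℝ) - 1) * m ^ (-(c * e2)) :=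
                    mul_le_mul_of_nonneg_left e1 (by positivity)
                _ = m ^ (((n : ℝ) - 1) + -(c * e2)) := by rw [Real.rpow_add hm0]
                _ ≤ m ^ (-ε + -(1 + 3 / 2 * β)) := by
                    apply Real.rpow_le_rpow_of_exponent_le hm1'
                    have e9 : 2 * β ≤ c * β := mul_le_mul_of_nonneg_right hc2 hβpos.le
                    linarith
                _ = m ^ (-ε) * m ^ (-(1 + 3 / 2 * β)) := by rw [Real.rpow_add hm0]
            have e6 : m ^ (-ε) * m ^ (-(1 + 3 / 2 * β)) ≤ m ^ (-ε) * H :=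
              mul_le_mul_of_nonneg_left hcase.le hmε.le
            have e7 : 0 ≤ H * T * H := by positivity
            linarith
          · have e1 := hterm1 b c hb hc hbc
            have e2' : H ^ b = H ^ (b - 1) * H := by
              rw [← pow_succ]; congr 1; omega
            have e3 : 0 ≤ H * T * H := by positivity
            calc m ^ (n - 1) * (H ^ b * S ^ c) = m ^ (n - 1) * (H ^ (b - 1) * S ^ c) * H := by
                  rw [e2']; ring
              _ ≤ m ^ (-ε) * H := mul_le_mul_of_nonneg_right e1 hH0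
              _ ≤ (m ^ (-ε) + H * T) * H := by linarith
      -- isolate the main term
      have hmain : g * T ≤ C2 * (m ^ (-ε) + H * T) := by
        have hE := hE0
        rw [ex2_eq, ← Finset.sum_product'] at hE
        have hmem : (b0, 0) ∈ Finset.range (n + 1) ×ˢ Finset.range (n + 1) := by
          rw [Finset.mem_product, Finset.mem_range, Finset.mem_range]
          constructor
          · by_contra hcon
            push Not at hcon
            exact hb0 (γ_big (Or.inl (by simpa using hcon)))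
          · simp
        rw [← Finset.add_sum_erase _ _ hmem] at hE
        simp only [pow_zero, mul_one] at hE
        have e1 : (γ p n b0 0 : ℝ) * (1 - z) ^ b0 = -∑ q ∈ (Finset.range (n + 1) ×ˢ
            Finset.range (n + 1)).erase (b0, 0), (γ p n q.1 q.2 : ℝ) * (1 - z) ^ q.1
              * (s - 1) ^ q.2 := by linarith
        have e2' : g * H ^ b0 ≤ ∑ q ∈ (Finset.range (n + 1) ×ˢ
            Finset.range (n + 1)).erase (b0, 0), |(γ p n q.1 q.2 : ℝ)| * (H ^ q.1 * S ^ q.2) := by
          have := congrArg abs e1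
          rw [abs_mul, abs_pow, abs_neg] at this
          rw [hg, hH, hS, this]
          refine le_trans (Finset.abs_sum_le_sum_abs _ _) (Finset.sum_le_sum fun q _ => ?_)
          rw [abs_mul, abs_mul, abs_pow, abs_pow, mul_assoc]
        have e3 : T = m ^ (n - 1) * H ^ b0 / H := by
          rw [hT, eq_div_iff hHpos.ne', mul_assoc, ← pow_succ]
          congr 2; omega
        have e4 : g * T ≤ ∑ q ∈ (Finset.range (n + 1) ×ˢ
            Finset.range (n + 1)).erase (b0, 0), |(γ p n q.1 q.2 : ℝ)| *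
              (m ^ (n - 1) * (H ^ q.1 * S ^ q.2) / H) := by
          have e5 := mul_le_mul_of_nonneg_left e2' (show 0 ≤ m ^ (n - 1) / H by positivity)
          rw [Finset.mul_sum] at e5
          calc g * T = m ^ (n - 1) / H * (g * H ^ b0) := by rw [e3]; ring
            _ ≤ _ := e5
            _ = _ := by
              apply Finset.sum_congr rfl
              intro q _
              ring
        refine le_trans e4 ?_
        have e5 : ∀ q ∈ (Finset.range (n + 1) ×ˢ Finset.range (n + 1)).erase (b0, 0),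
            |(γ p n q.1 q.2 : ℝ)| * (m ^ (n - 1) * (H ^ q.1 * S ^ q.2) / H)
            ≤ |(γ p n q.1 q.2 : ℝ)| * (m ^ (-ε) + H * T) := by
          intro q hq
          by_cases h0 : γ p n q.1 q.2 = 0
          · rw [h0]; simp
          · exact mul_le_mul_of_nonneg_left
              (hterm2 q.1 q.2 (Finset.ne_of_mem_erase hq) h0) (abs_nonneg _)
        refine le_trans (Finset.sum_le_sum e5) ?_
        rw [← Finset.sum_mul]
        apply mul_le_mul_of_nonneg_right _ (by positivity)
        rw [hC2, ← Finset.sum_product']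
        exact Finset.sum_le_sum_of_subset_of_nonneg (Finset.erase_subset _ _)
          fun _ _ _ => abs_nonneg _
      have e6 : C2 * H ≤ g / 2 := by
        have e7 : 2 * C2 ≤ m * g := by rwa [div_le_iff₀ hgpos] at hmg
        calc C2 * H ≤ C2 * (1 / m) := mul_le_mul_of_nonneg_left hHm hC2nn
          _ ≤ g / 2 := by
            rw [mul_one_div, div_le_div_iff₀ hm0 (by norm_num)]
            linarith
      have e7 : C2 * H * T ≤ g / 2 * T := mul_le_mul_of_nonneg_right e6 hT0
      have e8 : g / 2 * T ≤ C2 * m ^ (-ε) := by linarith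
      have e9 : T ≤ 2 * C2 / g * m ^ (-ε) := by
        rw [div_mul_eq_mul_div, le_div_iff₀ hgpos]
        linarith
      rw [hC3]
      linarith
  have hP' : ev' p n x y u = 0 := by
    apply int_small (K := C1 * (1 + C3)) (m := m) (ε := ε) hL (ev'_int hLint x y u)
    · have e0 : ∀ b c : ℕ, |m ^ (n - 1) * ((b : ℝ) * (γ p n b c : ℝ) * (1 - z) ^ (b - 1)
          * (s - 1) ^ c)| ≤ (b : ℝ) * |(γ p n b c : ℝ)| * ((1 + C3) * m ^ (-ε)) := by
        intro b c
        by_cases h0 : γ p n b c = 0
        · rw [h0]; simp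
        rcases Nat.eq_zero_or_pos b with hb | hb
        · rw [hb]; simp
        rw [abs_mul, abs_mul, abs_mul, abs_mul, abs_pow, abs_pow, abs_pow, abs_of_pos hm0,
          Nat.abs_cast]
        have e1 : m ^ (n - 1) * (H ^ (b - 1) * S ^ c) ≤ (1 + C3) * m ^ (-ε) := by
          rcases Nat.eq_zero_or_pos c with hc | hc
          · rw [hc] at h0 ⊢
            have hb' : b0 ≤ b := by
              by_contra hcon
              push Not at hcon
              exact h0 (hb0min b hcon)
            have e2' : H ^ (b - 1) ≤ H ^ (b0 - 1) := pow_le_pow_of_le_one hH0 hH1 (by omega)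
            rw [pow_zero, mul_one]
            calc m ^ (n - 1) * H ^ (b - 1) ≤ T := by
                  rw [hT]; exact mul_le_mul_of_nonneg_left e2' (by positivity)
              _ ≤ C3 * m ^ (-ε) := hTle
              _ ≤ (1 + C3) * m ^ (-ε) := by linarith
          · have e2' := hterm1 b c hb hc h0
            have e3 := mul_pos hC3pos hmε
            linarith
        calc m ^ (n - 1) * ((b : ℝ) * |(γ p n b c : ℝ)| * |1 - z| ^ (b - 1) * |s - 1| ^ c)
            = (b : ℝ) * |(γ p n b c : ℝ)| * (m ^ (n - 1) * (H ^ (b - 1) * S ^ c)) := by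
              rw [hH, hS]; ring
          _ ≤ _ := mul_le_mul_of_nonneg_left e1 (by positivity)
      rw [hev2, ex2'_eq, mul_neg, abs_neg, Finset.mul_sum]
      have e1 : C1 * (1 + C3) * m ^ (-ε) = ∑ b ∈ Finset.range (n + 1),
          ∑ c ∈ Finset.range (n + 1), (b : ℝ) * |(γ p n b c : ℝ)| * ((1 + C3) * m ^ (-ε)) := by
        rw [mul_assoc, hC1, Finset.sum_mul]
        apply Finset.sum_congr rfl
        intro b _
        rw [Finset.sum_mul]
      rw [e1]
      refine le_trans (Finset.abs_sum_le_sum_abs _ _) (Finset.sum_le_sum fun b _ => ?_)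
      rw [Finset.mul_sum]
      exact le_trans (Finset.abs_sum_le_sum_abs _ _) (Finset.sum_le_sum fun c _ => e0 b c)
    · have : L * (C1 * (1 + C3)) * m ^ (-ε) ≤ Kc * m ^ (-ε) := by
        apply mul_le_mul_of_nonneg_right _ hmε.le
        rw [hKc]
        have : 0 ≤ L * C2 := by positivity
        linarith
      linarith
  -- conclusion
  have hHhalf : H ≤ 1 / 2 := by
    refine le_trans hHm ?_
    rw [div_le_div_iff₀ hm0 (by norm_num)]; linarith
  have hzabs := abs_le.mp (hH ▸ hHhalf)
  have hz1 : 1 / 2 ≤ z := by linarith [hzabs.2]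
  have hz2 : z ≤ 3 / 2 := by linarith [hzabs.1]
  have hu0 : (u : ℝ) ≠ 0 := by
    rw [huz]; positivity
  have e1 := ev_evR p n le_rfl x y u hu0
  have e2' := ev'_evR p n le_rfl x y u hu0
  rw [hP] at e1
  rw [hP', mul_zero] at e2'
  have hun : (u : ℝ) ^ n ≠ 0 := pow_ne_zero n hu0
  have e3 := (mul_eq_zero.mp e1.symm).resolve_left hun
  have e4 := (mul_eq_zero.mp e2'.symm).resolve_left hun
  have e5 := congrArg (evR (x / u ^ 2) (y / u ^ 3)) hAB
  rw [map_add, map_mul, map_mul, e3, e4, mul_zero, mul_zero, add_zero] at e5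
  have e6 : evR (x / u ^ 2) (y / u ^ 3) (C R) = evR0 (x / u ^ 2) R := by
    simp [evR, eval₂_C]
  rw [e6] at e5
  refine hgap (x / u ^ 2) ?_ ?_ e5.symm
  · intro h3
    apply hxu
    rw [div_eq_one_iff_eq (pow_ne_zero 2 hu0)] at h3
    exact_mod_cast h3
  · have hz0 : z ≠ 0 := by linarith
    have e7 : (x : ℝ) / u ^ 2 - 1 = (1 - z) * (1 + z) / z ^ 2 := by
      rw [← hx, huz]; field_simp; ring
    rw [e7, abs_div, abs_mul, abs_of_pos (show (0 : ℝ) < 1 + z by linarith),
      abs_of_pos (show (0 : ℝ) < z ^ 2 by positivity), div_lt_iff₀ (by positivity)]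
    have e8 : 13 ≤ m * δ0 := by rwa [div_le_iff₀ hδ0] at hmδ
    have e9 : H * m ≤ 1 := by rwa [le_div_iff₀ hm0] at hHm
    have e10 : H * 13 ≤ δ0 := by
      have e11 : H * 13 ≤ H * (m * δ0) := mul_le_mul_of_nonneg_left e8 hH0
      have e12 : H * m * δ0 ≤ 1 * δ0 := mul_le_mul_of_nonneg_right e9 hδ0.le
      linarith
    have e11 : (1 : ℝ) / 4 ≤ z ^ 2 := by
      have := mul_le_mul hz1 hz1 (by norm_num) (by linarith)
      linarith
    have e12 : |1 - z| * (1 + z) ≤ H * (5 / 2) := by
      rw [← hH]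
      exact mul_le_mul_of_nonneg_left (by linarith) hH0
    have e14 : δ0 * (1 / 4) ≤ δ0 * z ^ 2 := mul_le_mul_of_nonneg_left e11 hδ0.le
    rw [← hH] at e12 ⊢
    linarith

end Pool.Agent.H453R2.Thue
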